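import Pool.Agent.CWPR.Lat

/-!
Blocks with prescribed degrees; balanced multigraphs of bounded multiplicity.
-/

namespace CWPR

variable {ι : Type*} [Fintype ι] [DecidableEq ι]

/-- blocks with prescribed degrees -/
theorem blocks (l β : ℕ) : ∀ r : ι → ℤ, (∀ i, 0 ≤ r i) → (∀ i, r i ≤ β) →
    (∑ i, r i = l * β) → ∃ b : Finset ι → ℤ, (∀ S, 0 ≤ b S) ∧ (∀ S, S.card ≠ l → b S = 0) ∧
      (∑ S, b S = β) ∧ ∀ i, ∑ S, b S * ind S i = r i := by
  induction β with
  | zero =>
    intro r h0 h1 _
    refine ⟨0, by simp, by simp, by simp, ?_⟩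
    intro i
    have h2 := h0 i
    have h3 := h1 i
    simp only [Pi.zero_apply, zero_mul, Finset.sum_const_zero]
    push_cast at h3
    omega
  | succ β ih =>
    intro r h0 h1 hs
    set A : Finset ι := Finset.univ.filter (fun i => r i = (β : ℤ) + 1) with hA
    set B : Finset ι := Finset.univ.filter (fun i => 1 ≤ r i) with hB
    have hAB : A ⊆ B := by
      intro i hi
      rw [hA, Finset.mem_filter] at hi
      rw [hB, Finset.mem_filter]
      refine ⟨hi.1, ?_⟩
      have := hi.2
      omega
    push_cast at hs h1
    have hAc : A.card ≤ l := by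
      have h2 : (A.card : ℤ) * (β + 1) ≤ l * (β + 1) := by
        rw [← hs]
        have h3 : ∑ i ∈ A, r i = A.card * ((β : ℤ) + 1) := by
          rw [Finset.sum_congr rfl (g := fun _ => (β : ℤ) + 1)]
          · simp
          · intro i hi
            rw [hA, Finset.mem_filter] at hi
            exact hi.2
        rw [← h3]
        exact Finset.sum_le_sum_of_subset_of_nonneg (Finset.subset_univ _)
          (fun i _ _ => h0 i)
      have h3 : (A.card : ℤ) ≤ l := le_of_mul_le_mul_right h2 (by positivity)
      exact_mod_cast h3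
    have hBc : l ≤ B.card := by
      have h2 : (l : ℤ) * (β + 1) ≤ B.card * (β + 1) := by
        rw [← hs]
        have h3 : ∑ i, r i = ∑ i ∈ B, r i := by
          symm
          apply Finset.sum_subset (Finset.subset_univ _)
          intro i _ hi
          rw [hB, Finset.mem_filter] at hi
          have h4 := h0 i
          by_contra h5
          exact hi ⟨Finset.mem_univ _, by omega⟩
        rw [h3]
        calc ∑ i ∈ B, r i ≤ ∑ _i ∈ B, ((β : ℤ) + 1) := Finset.sum_le_sum fun i _ => h1 i
          _ = B.card * (β + 1) := by simp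
      have h3 : (l : ℤ) ≤ B.card := le_of_mul_le_mul_right h2 (by positivity)
      exact_mod_cast h3
    obtain ⟨S, hAS, hSB, hSc⟩ := Finset.exists_subsuperset_card_eq hAB hAc hBc
    obtain ⟨b, hb0, hb1, hb2, hb3⟩ := ih (fun i => r i - ind S i) (by
        intro i
        show 0 ≤ r i - ind S i
        unfold ind
        split_ifs with hi
        · have := hSB hi
          rw [hB, Finset.mem_filter] at this
          have := this.2
          omega
        · have := h0 i
          omega) (by
        intro i
        show r i - ind S i ≤ β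
        unfold ind
        split_ifs with hi
        · have := h1 i
          omega
        · have h2 : r i ≠ (β : ℤ) + 1 := by
            intro h3
            apply hi
            apply hAS
            rw [hA, Finset.mem_filter]
            exact ⟨Finset.mem_univ _, h3⟩
          have := h1 i
          omega) (by
        rw [Finset.sum_sub_distrib, hs, sum_ind, hSc]
        ring)
    refine ⟨fun T => b T + if T = S then 1 else 0, ?_, ?_, ?_, ?_⟩
    · intro T
      have := hb0 T
      show 0 ≤ b T + if T = S then 1 else 0
      split_ifs <;> omega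
    · intro T hT
      have h2 : T ≠ S := by
        rintro rfl
        exact hT hSc
      simp [h2, hb1 T hT]
    · rw [Finset.sum_add_distrib, hb2]
      simp
    · intro i
      have h2 : ∀ T, (b T + if T = S then 1 else 0) * ind T i =
          b T * ind T i + if T = S then ind T i else 0 := by
        intro T
        split_ifs <;> ring
      rw [Finset.sum_congr rfl fun T _ => h2 T, Finset.sum_add_distrib, hb3]
      simp

/-- admissible multigraphs -/
def Adm (lam T : ℤ) (y : ι → ι → ℤ) : Prop :=
  (∀ i j, y i j = y j i) ∧ (∀ i, y i i = 0) ∧ (∀ i j, 0 ≤ y i j) ∧ (∀ i j, y i j ≤ lam) ∧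
    ∑ i, ∑ j, y i j = 2 * T

theorem adm_exists (lam : ℤ) (hlam : 0 ≤ lam) (T : ℕ)
    (hT : 2 * (T : ℤ) ≤ lam * (Fintype.card ι * (Fintype.card ι - 1))) :
    ∃ y : ι → ι → ℤ, Adm lam T y := by
  induction T with
  | zero => exact ⟨0, by simp, by simp, by simp, fun _ _ => hlam, by simp⟩
  | succ T ih =>
    push_cast at hT
    obtain ⟨y, h1, h2, h3, h4, h5⟩ := ih (by linarith)
    have hex : ∃ a b, a ≠ b ∧ y a b < lam := by
      by_contra hcon
      push Not at hcon
      have h6 : ∀ i, ∑ j, y i j = lam * ((Fintype.card ι : ℤ) - 1) := by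
        intro i
        have h7 : ∀ j, y i j = lam - lam * ee i j := by
          intro j
          unfold ee
          by_cases hij : j = i
          · subst hij
            rw [h2]
            simp
          · rw [if_neg hij, le_antisymm (h4 i j) (hcon i j (Ne.symm hij))]
            ring
        rw [Finset.sum_congr rfl fun j _ => h7 j, Finset.sum_sub_distrib, ← Finset.mul_sum, sum_ee]
        simp
        ring
      rw [Finset.sum_congr rfl fun i _ => h6 i] at h5
      simp at h5
      nlinarith
    obtain ⟨a, b, hab, hlt⟩ := hex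
    refine ⟨fun i j => y i j + edge a b i j, ?_, ?_, ?_, ?_, ?_⟩
    · intro i j
      beta_reduce
      rw [h1, edge_symm]
    · intro i
      beta_reduce
      rw [h2, edge_diag hab]
      norm_num
    · intro i j
      beta_reduce
      rw [edge_eq hab]
      have := h3 i j
      split_ifs <;> omega
    · intro i j
      beta_reduce
      rw [edge_eq hab]
      have := h4 i j
      split_ifs with h
      · rcases h with ⟨rfl, rfl⟩ | ⟨rfl, rfl⟩
        · omega
        · rw [h1]
          omega
      · omega
    · simp only [Finset.sum_add_distrib]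
      rw [h5, edge_total]
      push_cast
      ring

/-- balanced multigraphs -/
theorem balanced (lam : ℤ) (hlam : 0 ≤ lam) (T : ℕ)
    (hT : 2 * (T : ℤ) ≤ lam * (Fintype.card ι * (Fintype.card ι - 1))) :
    ∃ y : ι → ι → ℤ, Adm lam T y ∧ ∀ i i', ∑ j, y i j ≤ ∑ j, y i' j + 1 := by
  classical
  have hne : ∃ N : ℕ, ∃ y : ι → ι → ℤ, Adm lam T y ∧ ∑ i, (∑ j, y i j) ^ 2 = (N : ℤ) := by
    obtain ⟨y, hy⟩ := adm_exists (ι := ι) lam hlam T hT
    refine ⟨(∑ i, (∑ j, y i j) ^ 2).toNat, y, hy, ?_⟩
    rw [Int.toNat_of_nonneg]
    exact Finset.sum_nonneg fun i _ => sq_nonneg _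
  obtain ⟨y, hy, hN⟩ := Nat.find_spec hne
  refine ⟨y, hy, ?_⟩
  intro a b
  by_contra hcon
  push Not at hcon
  obtain ⟨h1, h2, h3, h4, h5⟩ := hy
  have hab : a ≠ b := by
    rintro rfl
    omega
  -- a common neighbour to move
  have hex : ∃ c, c ≠ a ∧ c ≠ b ∧ y b c < y a c := by
    by_contra hc
    push Not at hc
    have h6 : ∑ j, (y a j - y b j) ≤ ∑ j, (ee b j * (y a b) - ee a j * (y b a)) := by
      apply Finset.sum_le_sum
      intro j _
      unfold ee
      by_cases hja : j = a
      · subst hja
        rw [h2]
        simp [hab]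
      · by_cases hjb : j = b
        · subst hjb
          rw [h2]
          simp [hja]
        · have := hc j hja hjb
          simp [hja, hjb]
          omega
    rw [Finset.sum_sub_distrib, Finset.sum_sub_distrib, sum_ee_mul, sum_ee_mul, h1 a b] at h6
    omega
  obtain ⟨c, hca, hcb, hlt⟩ := hex
  set y' : ι → ι → ℤ := fun i j => y i j - edge a c i j + edge b c i j with hy'
  have hrow : ∀ i, ∑ j, y' i j = ∑ j, y i j - ee a i + ee b i := by
    intro i
    rw [hy']
    simp only [Finset.sum_add_distrib, Finset.sum_sub_distrib, edge_row]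
    ring
  have hAdm : Adm lam T y' := by
    refine ⟨?_, ?_, ?_, ?_, ?_⟩
    · intro i j
      rw [hy']
      simp only
      rw [h1, edge_symm a c, edge_symm b c]
    · intro i
      rw [hy']
      simp only
      rw [h2, edge_diag hca.symm, edge_diag hcb.symm]
      norm_num
    · intro i j
      rw [hy']
      simp only
      rw [edge_eq hca.symm, edge_eq hcb.symm]
      have e0 := h3 i j
      have e1 := h3 b c
      have e2 : y c a = y a c := h1 c a
      have e3 : y i j - (if i = a ∧ j = c ∨ i = c ∧ j = a then 1 else 0) ≥ 0 := by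
        split_ifs with h
        · rcases h with ⟨hi, hj⟩ | ⟨hi, hj⟩
          · rw [hi, hj]
            omega
          · rw [hi, hj]
            omega
        · omega
      have e4 : (0 : ℤ) ≤ (if i = b ∧ j = c ∨ i = c ∧ j = b then 1 else 0) := by
        split_ifs <;> norm_num
      omega
    · intro i j
      rw [hy']
      simp only
      rw [edge_eq hca.symm, edge_eq hcb.symm]
      have e0 := h4 i j
      have e1 := h4 a c
      have e2 : y c b = y b c := h1 c b
      have e3 : y i j + (if i = b ∧ j = c ∨ i = c ∧ j = b then 1 else 0) ≤ lam := by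
        split_ifs with h
        · rcases h with ⟨hi, hj⟩ | ⟨hi, hj⟩
          · rw [hi, hj]
            omega
          · rw [hi, hj]
            omega
        · omega
      have e4 : (0 : ℤ) ≤ (if i = a ∧ j = c ∨ i = c ∧ j = a then 1 else 0) := by
        split_ifs <;> norm_num
      omega
    · simp only [hrow]
      rw [Finset.sum_add_distrib, Finset.sum_sub_distrib, h5, sum_ee, sum_ee]
      ring
  have hsum : ∑ i, (∑ j, y' i j) ^ 2 = ∑ i, (∑ j, y i j) ^ 2 - 2 * (∑ j, y a j) +
      2 * (∑ j, y b j) + 2 := by
    simp only [hrow]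
    have h6 : ∀ i, (∑ j, y i j - ee a i + ee b i) ^ 2 = (∑ j, y i j) ^ 2 -
        2 * (ee a i * (∑ j, y a j)) + 2 * (ee b i * (∑ j, y b j)) + ee a i + ee b i := by
      intro i
      unfold ee
      by_cases hia : i = a
      · subst hia
        simp [hab]
        ring
      · by_cases hib : i = b
        · subst hib
          simp [hia]
          ring
        · simp [hia, hib]
    rw [Finset.sum_congr rfl fun i _ => h6 i]
    simp only [Finset.sum_add_distrib, Finset.sum_sub_distrib, ← Finset.mul_sum, sum_ee_mul,
      sum_ee]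
    ring
  have hlt2 : ∑ i, (∑ j, y' i j) ^ 2 < ∑ i, (∑ j, y i j) ^ 2 := by
    rw [hsum]
    omega
  have hnn : 0 ≤ ∑ i, (∑ j, y' i j) ^ 2 := Finset.sum_nonneg fun i _ => sq_nonneg _
  rw [hN] at hlt2
  have h7 : (∑ i, (∑ j, y' i j) ^ 2).toNat < Nat.find hne := by
    omega
  apply Nat.find_min hne h7
  exact ⟨y', hAdm, by rw [Int.toNat_of_nonneg hnn]⟩

end CWPR
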