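import Pool.Agent.CWPR.Comb

/-!
Near-uniform pair coverings by blocks of two consecutive sizes on a fixed set of points.
-/

namespace CWPR

variable {ι : Type*} [Fintype ι] [DecidableEq ι]

omit [Fintype ι] in
theorem blk_self (S : Finset ι) (i : ι) : blk S i i = ind S i := ind_sq S i

theorem blk_row (S : Finset ι) (i : ι) : ∑ j, blk S i j = ind S i * S.card := by
  unfold blk
  rw [← Finset.mul_sum, sum_ind]

/-- a signed solution, nonnegative on the blocks of size `l` -/
theorem small (k l : ℕ) (hk : 2 ≤ k) (hk' : k + 2 ≤ Fintype.card ι) (hl' : l ≤ Fintype.card ι)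
    (hkl : (l : ℤ) - k = 1 ∨ (l : ℤ) - k = -1) (α β w : ℕ)
    (hw : (k : ℤ) * α + l * β = Fintype.card ι * w) :
    ∃ z b : Finset ι → ℤ, (∀ S, S.card ≠ k → z S = 0) ∧ (∀ S, 0 ≤ b S) ∧ (∑ S, z S = α) ∧
      (∑ S, b S = β) ∧ (∀ i, ∑ S, (z S + b S) * ind S i = w) ∧
      ∀ lam : ℤ, (k : ℤ) * (k - 1) * α + l * (l - 1) * β ≤
        lam * (Fintype.card ι * (Fintype.card ι - 1)) →
        ∀ i j, i ≠ j → ∑ S, (z S + b S) * blk S i j ≤ lam := by
  set M : ℕ := Fintype.card ι with hM
  set s : ℤ := (l : ℤ) - k with hs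
  have hs2 : s * s = 1 := by
    rcases hkl with h | h <;> rw [h] <;> norm_num
  obtain ⟨T, hT⟩ : ∃ T : ℕ, (2 : ℤ) * T = (k : ℤ) * (k - 1) * α + l * (l - 1) * β := by
    have h1 : ∀ n : ℕ, ∃ t : ℕ, (n : ℤ) * (n - 1) = 2 * t := by
      intro n
      obtain ⟨t, ht⟩ := (Nat.even_mul_pred_self n).two_dvd
      refine ⟨t, ?_⟩
      rcases Nat.eq_zero_or_pos n with h0 | h0
      · subst h0
        simp at ht
        subst ht
        simp
      · have h4 : ((n * (n - 1) : ℕ) : ℤ) = ((2 * t : ℕ) : ℤ) := by rw [ht]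
        rw [Nat.cast_mul, Nat.cast_sub h0] at h4
        push_cast at h4
        exact h4
    obtain ⟨t1, h1'⟩ := h1 k
    obtain ⟨t2, h2'⟩ := h1 l
    refine ⟨t1 * α + t2 * β, ?_⟩
    rw [h1', h2']
    push_cast
    ring
  have hMpos : (4 : ℤ) ≤ M := by
    have : 4 ≤ M := by omega
    exact_mod_cast this
  set P : ℤ := (M : ℤ) * (M - 1) with hP
  have hPpos : 0 < P := mul_pos (by linarith) (by linarith)
  set lam0 : ℤ := (2 * T + (P - 1)) / P with hlam0
  have hl1 : 2 * (T : ℤ) ≤ lam0 * P := by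
    have h1 := Int.lt_ediv_add_one_mul_self (2 * (T : ℤ) + (P - 1)) hPpos
    rw [← hlam0] at h1
    nlinarith
  have hl2 : ∀ lam : ℤ, 2 * (T : ℤ) ≤ lam * P → lam0 ≤ lam := by
    intro lam h
    have h1 : lam0 < lam + 1 := by
      rw [hlam0]
      apply Int.ediv_lt_of_lt_mul hPpos
      nlinarith
    omega
  have hlam0' : 0 ≤ lam0 := by
    rw [hlam0]
    apply Int.ediv_nonneg _ hPpos.le
    have : (0 : ℤ) ≤ T := Int.natCast_nonneg _
    linarith
  obtain ⟨y, ⟨hy1, hy2, hy3, hy4, hy5⟩, hbal⟩ := balanced (ι := ι) lam0 hlam0' T hl1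
  set D : ι → ℤ := fun i => ∑ j, y i j with hD
  set r : ι → ℤ := fun i => s * (D i - (k - 1) * w) with hr
  have hrsum : ∑ i, r i = l * β := by
    have h1 : ∑ i, D i = 2 * T := hy5
    rw [hr]
    rw [← Finset.mul_sum, Finset.sum_sub_distrib, h1]
    simp only [Finset.sum_const, Finset.card_univ, nsmul_eq_mul]
    rw [← hM, hT]
    have h2 : (M : ℤ) * ((k - 1) * w) = (k - 1) * (k * α + l * β) := by
      rw [hw]
      ring
    rw [h2]
    have h3 : s * ((k : ℤ) * (k - 1) * α + l * (l - 1) * β - (k - 1) * (k * α + l * β)) =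
        (s * ((l : ℤ) - k)) * (l * β) := by ring
    rw [h3, ← hs, hs2]
    ring
  have hrbal : ∀ i i', r i ≤ r i' + 1 := by
    intro i i'
    have h1 := hbal i i'
    have h2 := hbal i' i
    show s * (D i - (k - 1) * w) ≤ s * (D i' - (k - 1) * w) + 1
    rcases hkl with h | h
    · rw [h]
      simp only [hD]
      linarith
    · rw [h]
      simp only [hD]
      linarith
  have hr0 : ∀ i, 0 ≤ r i := by
    intro i
    by_contra hcon
    push Not at hcon
    have h1 : ∑ i', r i' < ∑ _i' : ι, (0 : ℤ) := by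
      apply Finset.sum_lt_sum
      · intro i' _
        have := hrbal i' i
        omega
      · exact ⟨i, Finset.mem_univ _, hcon⟩
    rw [hrsum] at h1
    simp only [Finset.sum_const_zero] at h1
    have h2 : (0 : ℤ) ≤ (l : ℤ) * β := by positivity
    linarith
  have hr1 : ∀ i, r i ≤ β := by
    intro i
    by_contra hcon
    push Not at hcon
    have h1 : ∑ _i' : ι, (β : ℤ) < ∑ i', r i' := by
      apply Finset.sum_lt_sum
      · intro i' _
        have := hrbal i i'
        omega
      · exact ⟨i, Finset.mem_univ _, hcon⟩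
    rw [hrsum] at h1
    simp only [Finset.sum_const, Finset.card_univ, nsmul_eq_mul] at h1
    rw [← hM] at h1
    have h2 : (l : ℤ) ≤ M := by exact_mod_cast hl'
    have h3 : (l : ℤ) * β ≤ M * β := mul_le_mul_of_nonneg_right h2 (Int.natCast_nonneg _)
    linarith
  obtain ⟨b, hb0, hb1, hb2, hb3⟩ := blocks l β r hr0 hr1 hrsum
  set X : ι → ι → ℤ := fun i j => y i j + w * ee i j - ∑ S, b S * blk S i j with hX
  have hXd : ∀ i, X i i = w - r i := by
    intro i
    show y i i + w * ee i i - ∑ S, b S * blk S i i = w - r i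
    rw [hy2, Finset.sum_congr rfl fun S _ => by rw [blk_self], hb3]
    unfold ee
    simp
  have hXr : ∀ i, ∑ j, X i j = k * X i i := by
    intro i
    rw [hXd]
    have h1 : ∑ j, X i j = D i + w - l * r i := by
      rw [hX]
      simp only [Finset.sum_sub_distrib, Finset.sum_add_distrib]
      rw [← Finset.mul_sum, sum_ee, Finset.sum_comm]
      have h2 : ∑ S, ∑ j, b S * blk S i j = l * r i := by
        rw [← hb3 i, Finset.mul_sum]
        refine Finset.sum_congr rfl fun S _ => ?_
        rw [← Finset.mul_sum, blk_row]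
        by_cases hS : S.card = l
        · rw [hS]
          ring
        · rw [hb1 S hS]
          ring
      rw [h2]
      ring
    rw [h1]
    have h2 : s * r i = D i - (k - 1) * w := by
      show s * (s * (D i - (k - 1) * w)) = D i - (k - 1) * w
      rw [← mul_assoc, hs2, one_mul]
    have h3 : (l : ℤ) = k + s := by rw [hs]; ring
    rw [h3]
    linear_combination -h2
  have hXs : ∀ i j, X i j = X j i := by
    intro i j
    show y i j + w * ee i j - ∑ S, b S * blk S i j = y j i + w * ee j i - ∑ S, b S * blk S j i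
    have h1 : ee i j = ee j i := by
      unfold ee
      by_cases h : j = i
      · subst h
        rfl
      · rw [if_neg h, if_neg (Ne.symm h)]
    have h2 : ∀ S, blk S i j = blk S j i := by
      intro S
      unfold blk
      ring
    rw [hy1, h1, Finset.sum_congr rfl fun S _ => by rw [h2]]
  have hXt : ∑ i, X i i = k * α := by
    rw [Finset.sum_congr rfl fun i _ => hXd i, Finset.sum_sub_distrib, hrsum]
    simp only [Finset.sum_const, Finset.card_univ, nsmul_eq_mul]
    rw [← hM]
    linarith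
  obtain ⟨z, hz1, hz2, hz3⟩ := signed hk hk' X hXs hXr α hXt
  have hzb : ∀ i j, ∑ S, (z S + b S) * blk S i j = y i j + w * ee i j := by
    intro i j
    have h1 : ∀ S, (z S + b S) * blk S i j = z S * blk S i j + b S * blk S i j := by
      intro S
      ring
    rw [Finset.sum_congr rfl fun S _ => h1 S, Finset.sum_add_distrib, ← hz3]
    show y i j + w * ee i j - ∑ S, b S * blk S i j + ∑ S, b S * blk S i j = _
    ring
  refine ⟨z, b, hz1, hb0, hz2, hb2, ?_, ?_⟩
  · intro i
    rw [Finset.sum_congr rfl fun S _ => by rw [← blk_self S i], hzb, hy2]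
    unfold ee
    simp
  · intro lam hlam i j hij
    rw [hzb]
    have h1 : ee i j = 0 := by
      unfold ee
      rw [if_neg (Ne.symm hij)]
    rw [h1, mul_zero, add_zero]
    rw [← hT] at hlam
    exact (hy4 i j).trans (hl2 lam hlam)

/-- the complete design -/
def uu (k : ℕ) (S : Finset ι) : ℤ := if S.card = k then 1 else 0

omit [DecidableEq ι] in
theorem uu_sum (k : ℕ) : ∑ S : Finset ι, uu k S = ((Fintype.card ι).choose k : ℤ) := by
  unfold uu
  rw [← Finset.card_univ, ← Finset.card_powersetCard, Finset.powersetCard_eq_filter,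
    Finset.powerset_univ, Finset.card_filter]
  push_cast
  rfl

omit [Fintype ι] in
theorem ind_map (σ : Equiv.Perm ι) (S : Finset ι) (i : ι) :
    ind (σ.finsetCongr S) (σ i) = ind S i := by
  unfold ind
  simp

omit [Fintype ι] [DecidableEq ι] in
theorem uu_map (k : ℕ) (σ : Equiv.Perm ι) (S : Finset ι) : uu k (σ.finsetCongr S) = uu k S := by
  unfold uu
  simp

theorem uu_blk_perm (k : ℕ) (σ : Equiv.Perm ι) (i j : ι) :
    ∑ S, uu k S * blk S (σ i) (σ j) = ∑ S, uu k S * blk S i j := by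
  rw [← Equiv.sum_comp σ.finsetCongr]
  refine Finset.sum_congr rfl fun S _ => ?_
  unfold blk
  rw [uu_map, ind_map, ind_map]

theorem uu_blk (k : ℕ) (hM : 2 ≤ Fintype.card ι) : ∃ D1 D2 : ℤ,
    (∀ i : ι, ∑ S, uu k S * ind S i = D1) ∧
    (∀ i j : ι, i ≠ j → ∑ S, uu k S * blk S i j = D2) ∧
    (Fintype.card ι : ℤ) * D1 = k * (Fintype.card ι).choose k ∧
    (Fintype.card ι : ℤ) * (Fintype.card ι - 1) * D2 = k * (k - 1) * (Fintype.card ι).choose k := by
  obtain ⟨a, b, hab⟩ : ∃ a b : ι, a ≠ b := by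
    exact Fintype.one_lt_card_iff.1 (by omega)
  set D1 : ℤ := ∑ S, uu k S * ind S a with hD1
  set D2 : ℤ := ∑ S, uu k S * blk S a b with hD2
  have h1 : ∀ i : ι, ∑ S, uu k S * ind S i = D1 := by
    intro i
    have h := uu_blk_perm k (Equiv.swap a i) a a
    rw [Equiv.swap_apply_left] at h
    simp only [blk_self] at h
    rw [hD1, h]
  have h2 : ∀ i j : ι, i ≠ j → ∑ S, uu k S * blk S i j = D2 := by
    intro i j hij
    have h := uu_blk_perm k (Equiv.swap (Equiv.swap a i b) j * Equiv.swap a i) a b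
    have e1 : (Equiv.swap (Equiv.swap a i b) j * Equiv.swap a i) a = i := by
      rw [Equiv.Perm.mul_apply, Equiv.swap_apply_left]
      apply Equiv.swap_apply_of_ne_of_ne _ hij
      intro h3
      have h4 : Equiv.swap a i b = Equiv.swap a i a := by rw [Equiv.swap_apply_left, ← h3]
      exact hab ((Equiv.injective _ h4).symm)
    have e2 : (Equiv.swap (Equiv.swap a i b) j * Equiv.swap a i) b = j := by
      rw [Equiv.Perm.mul_apply, Equiv.swap_apply_left]
    rw [e1, e2] at h
    rw [hD2, h]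
  have h3 : ∑ i : ι, ∑ S, uu k S * ind S i = k * ((Fintype.card ι).choose k : ℤ) := by
    rw [Finset.sum_comm, ← uu_sum (ι := ι) k, Finset.mul_sum]
    refine Finset.sum_congr rfl fun S _ => ?_
    rw [← Finset.mul_sum, sum_ind]
    unfold uu
    split_ifs with h
    · rw [h]
      ring
    · ring
  have h4 : (Fintype.card ι : ℤ) * D1 = k * (Fintype.card ι).choose k := by
    rw [← h3, Finset.sum_congr rfl fun i _ => h1 i]
    simp
  refine ⟨D1, D2, h1, h2, h4, ?_⟩
  have h5 : ∑ i : ι, ∑ j : ι, ∑ S, uu k S * blk S i j =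
      k * k * ((Fintype.card ι).choose k : ℤ) := by
    have h6 : ∀ i : ι, ∑ j, ∑ S, uu k S * blk S i j = k * ∑ S, uu k S * ind S i := by
      intro i
      rw [Finset.sum_comm, Finset.mul_sum]
      refine Finset.sum_congr rfl fun S _ => ?_
      rw [← Finset.mul_sum, blk_row]
      unfold uu
      split_ifs with h
      · rw [h]
        ring
      · ring
    rw [Finset.sum_congr rfl fun i _ => h6 i, ← Finset.mul_sum, h3]
    ring
  have h6 : ∀ i : ι, ∑ j, ∑ S, uu k S * blk S i j = D1 + ((Fintype.card ι : ℤ) - 1) * D2 := by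
    intro i
    have h7 : ∀ j, ∑ S, uu k S * blk S i j = D2 + ee i j * (D1 - D2) := by
      intro j
      unfold ee
      by_cases h : j = i
      · subst h
        simp only [blk_self]
        rw [h1]
        simp
      · rw [h2 i j (Ne.symm h), if_neg h]
        ring
    rw [Finset.sum_congr rfl fun j _ => h7 j, Finset.sum_add_distrib, sum_ee_mul]
    simp only [Finset.sum_const, Finset.card_univ, nsmul_eq_mul]
    ring
  rw [Finset.sum_congr rfl fun i _ => h6 i] at h5
  simp only [Finset.sum_const, Finset.card_univ, nsmul_eq_mul] at h5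
  linear_combination h5 - h4

/-- uniform bound over finitely many cases -/
theorem unif {γ : Type*} [DecidableEq γ] (Q : ℕ → γ → Prop) (hmono : ∀ K K' p, K ≤ K' → Q K p → Q K' p)
    (s : Finset γ) (h : ∀ p ∈ s, ∃ K, Q K p) : ∃ K, ∀ p ∈ s, Q K p := by
  induction s using Finset.induction_on with
  | empty => exact ⟨0, by simp⟩
  | insert a s _ ih =>
    obtain ⟨K1, h1⟩ := ih fun p hp => h p (Finset.mem_insert_of_mem hp)
    obtain ⟨K2, h2⟩ := h a (Finset.mem_insert_self a s)
    refine ⟨max K1 K2, ?_⟩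
    intro p hp
    rcases Finset.mem_insert.1 hp with rfl | hp
    · exact hmono _ _ _ (le_max_right _ _) h2
    · exact hmono _ _ _ (le_max_left _ _) (h1 p hp)

theorem main_lemma (k l : ℕ) (hk : 2 ≤ k) (hk' : k + 2 ≤ Fintype.card ι)
    (hl' : l ≤ Fintype.card ι) (hkl : (l : ℤ) - k = 1 ∨ (l : ℤ) - k = -1) :
    ∃ K : ℕ, ∀ (α β w : ℕ) (lam : ℤ), K ≤ α → (k : ℤ) * α + l * β = Fintype.card ι * w →
      (k : ℤ) * (k - 1) * α + l * (l - 1) * β ≤ lam * (Fintype.card ι * (Fintype.card ι - 1)) →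
      ∃ x : Finset ι → ℤ, (∀ S, 0 ≤ x S) ∧ (∑ S, x S = α + β) ∧
        (∀ i, ∑ S, x S * ind S i = w) ∧ (∀ i j, i ≠ j → ∑ S, x S * blk S i j ≤ lam) := by
  set M : ℕ := Fintype.card ι with hM
  set N1 : ℕ := M.choose k with hN1
  set N2 : ℕ := M.choose l with hN2
  have hN1pos : 0 < N1 := Nat.choose_pos (by omega)
  have hN2pos : 0 < N2 := Nat.choose_pos (by omega)
  have hMpos : (4 : ℤ) ≤ M := by
    have : 4 ≤ M := by omega
    exact_mod_cast this
  obtain ⟨A1, A2, hA1, hA2, hA3, hA4⟩ := uu_blk (ι := ι) k (by omega)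
  obtain ⟨B1, B2, hB1, hB2, hB3, hB4⟩ := uu_blk (ι := ι) l (by omega)
  rw [← hM, ← hN1] at hA3 hA4
  rw [← hM, ← hN2] at hB3 hB4
  -- uniform bound for the residues
  have huni := unif (γ := ℕ × ℕ) (fun K p => ∀ w : ℕ, (k : ℤ) * p.1 + l * p.2 = M * w →
      ∃ z b : Finset ι → ℤ, (∀ S, S.card ≠ k → z S = 0) ∧ (∀ S, 0 ≤ b S) ∧ (∑ S, z S = p.1) ∧
      (∑ S, b S = p.2) ∧ (∀ i, ∑ S, (z S + b S) * ind S i = w) ∧
      (∀ lam : ℤ, (k : ℤ) * (k - 1) * p.1 + l * (l - 1) * p.2 ≤ lam * (M * (M - 1)) →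
        ∀ i j, i ≠ j → ∑ S, (z S + b S) * blk S i j ≤ lam) ∧ ∀ S, -(K : ℤ) ≤ z S)
    (by
      intro K K' p hK h w hw
      obtain ⟨z, b, h1, h2, h3, h4, h5, h6, h7⟩ := h w hw
      refine ⟨z, b, h1, h2, h3, h4, h5, h6, ?_⟩
      intro S
      have h8 : (K : ℤ) ≤ K' := by exact_mod_cast hK
      have := h7 S
      linarith)
    (Finset.range N1 ×ˢ Finset.range N2) (by
      intro p _
      by_cases hex : ∃ w : ℕ, (k : ℤ) * p.1 + l * p.2 = M * w
      · obtain ⟨w, hw⟩ := hex
        obtain ⟨z, b, h1, h2, h3, h4, h5, h6⟩ := small k l hk hk' hl' hkl p.1 p.2 w hw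
        refine ⟨(∑ S, |z S|).toNat, ?_⟩
        intro w' hw'
        have hww : w' = w := by
          have h7 : (M : ℤ) * w' = M * w := by rw [← hw', hw]
          have h8 : (w' : ℤ) = w := mul_left_cancel₀ (by linarith) h7
          exact_mod_cast h8
        subst hww
        refine ⟨z, b, h1, h2, h3, h4, h5, h6, ?_⟩
        intro S
        rw [Int.toNat_of_nonneg (Finset.sum_nonneg fun S _ => abs_nonneg _)]
        have h7 : |z S| ≤ ∑ S, |z S| :=
          Finset.single_le_sum (f := fun S => |z S|) (fun S _ => abs_nonneg _) (Finset.mem_univ S)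
        have h8 := neg_abs_le (z S)
        linarith
      · refine ⟨0, ?_⟩
        intro w hw
        exact absurd ⟨w, hw⟩ hex)
  obtain ⟨K, hK⟩ := huni
  refine ⟨K * N1, ?_⟩
  intro α β w lam hα hw hlam
  set A : ℕ := α / N1 with hA
  set B : ℕ := β / N2 with hB
  have eα : (α : ℤ) = A * N1 + (α % N1 : ℕ) := by
    have := Nat.div_add_mod α N1
    rw [hA]
    exact_mod_cast (by rw [mul_comm]; exact this.symm)
  have eβ : (β : ℤ) = B * N2 + (β % N2 : ℕ) := by
    have := Nat.div_add_mod β N2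
    rw [hB]
    exact_mod_cast (by rw [mul_comm]; exact this.symm)
  have hKA : K ≤ A := by
    rw [hA, Nat.le_div_iff_mul_le hN1pos]
    exact hα
  set α0 : ℕ := α % N1 with hα0
  set β0 : ℕ := β % N2 with hβ0
  -- the residual weight
  have hw0 : (k : ℤ) * α0 + l * β0 = M * (w - A * A1 - B * B1) := by
    rw [eα, eβ] at hw
    linear_combination hw + (A : ℤ) * hA3 + (B : ℤ) * hB3
  have hw0' : 0 ≤ (w : ℤ) - A * A1 - B * B1 := by
    by_contra hcon
    push Not at hcon
    have h1 : (M : ℤ) * (w - A * A1 - B * B1) < 0 := mul_neg_of_pos_of_neg (by linarith) hcon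
    rw [← hw0] at h1
    have h2 : (0 : ℤ) ≤ (k : ℤ) * α0 + l * β0 := by positivity
    linarith
  obtain ⟨w0, hw0''⟩ := Int.eq_ofNat_of_zero_le hw0'
  rw [hw0''] at hw0
  have hmem : (α0, β0) ∈ Finset.range N1 ×ˢ Finset.range N2 := by
    rw [Finset.mem_product, Finset.mem_range, Finset.mem_range]
    exact ⟨Nat.mod_lt _ hN1pos, Nat.mod_lt _ hN2pos⟩
  obtain ⟨z, b, h1, h2, h3, h4, h5, h6, h7⟩ := hK _ hmem w0 hw0
  refine ⟨fun S => (z S + b S) + (A * uu k S + B * uu l S), ?_, ?_, ?_, ?_⟩
  · intro S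
    have e1 := h2 S
    have e2 := h7 S
    have e3 : (K : ℤ) ≤ A := by exact_mod_cast hKA
    have e4 : (0 : ℤ) ≤ (B : ℤ) * uu l S := by
      apply mul_nonneg (Int.natCast_nonneg _)
      unfold uu
      split_ifs <;> norm_num
    show 0 ≤ (z S + b S) + (A * uu k S + B * uu l S)
    by_cases hS : S.card = k
    · have e5 : uu k S = 1 := by
        unfold uu
        rw [if_pos hS]
      rw [e5]
      linarith
    · have e5 : uu k S = 0 := by
        unfold uu
        rw [if_neg hS]
      rw [e5, h1 S hS]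
      linarith
  · rw [Finset.sum_add_distrib, Finset.sum_add_distrib, h3, h4, Finset.sum_add_distrib,
      ← Finset.mul_sum, ← Finset.mul_sum, uu_sum, uu_sum, eα, eβ]
    ring
  · intro i
    have e1 : ∀ S, ((z S + b S) + (A * uu k S + B * uu l S)) * ind S i =
        (z S + b S) * ind S i + (A * (uu k S * ind S i) + B * (uu l S * ind S i)) := by
      intro S
      ring
    rw [Finset.sum_congr rfl fun S _ => e1 S, Finset.sum_add_distrib, h5,
      Finset.sum_add_distrib, ← Finset.mul_sum, ← Finset.mul_sum, hA1, hB1]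
    linarith
  · intro i j hij
    have e1 : ∀ S, ((z S + b S) + (A * uu k S + B * uu l S)) * blk S i j =
        (z S + b S) * blk S i j + (A * (uu k S * blk S i j) + B * (uu l S * blk S i j)) := by
      intro S
      ring
    rw [Finset.sum_congr rfl fun S _ => e1 S, Finset.sum_add_distrib,
      Finset.sum_add_distrib, ← Finset.mul_sum, ← Finset.mul_sum, hA2 i j hij, hB2 i j hij]
    have e3 : (lam - A * A2 - B * B2) * ((M : ℤ) * (M - 1)) =
        lam * (M * (M - 1)) - A * (k * (k - 1) * N1) - B * (l * (l - 1) * N2) := by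
      rw [← hA4, ← hB4]
      ring
    have e2 := h6 (lam - A * A2 - B * B2) (by
      rw [eα, eβ] at hlam
      rw [e3]
      linarith) i j hij
    linarith

end CWPR
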