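import Mathlib

/-!
The lattice of pair matrices of blocks of a fixed size (Graver-Jurkat / Wilson for pairs).
-/

namespace CWPR

variable {ι : Type*} [Fintype ι] [DecidableEq ι]

/-- indicator vector of a block -/
def ind (S : Finset ι) (i : ι) : ℤ := if i ∈ S then 1 else 0

/-- pair matrix of a block -/
def blk (S : Finset ι) (i j : ι) : ℤ := ind S i * ind S j

/-- the unit vector -/
def ee (a : ι) (i : ι) : ℤ := if i = a then 1 else 0

/-- the edge matrix -/
def edge (a b : ι) (i j : ι) : ℤ := ee a i * ee b j + ee b i * ee a j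

/-- alternating four-cycle -/
def cyc (a b c d : ι) (i j : ι) : ℤ :=
  edge a b i j - edge b c i j + edge c d i j - edge d a i j

/-- integral combinations of the pair matrices of blocks of size `k` -/
def Lat (k : ℕ) : AddSubgroup (ι → ι → ℤ) :=
  AddSubgroup.closure {X | ∃ S : Finset ι, S.card = k ∧ X = blk S}

omit [Fintype ι] in
theorem blk_mem {k : ℕ} {S : Finset ι} (hS : S.card = k) : (blk S : ι → ι → ℤ) ∈ Lat k :=
  AddSubgroup.subset_closure ⟨S, hS, rfl⟩

omit [Fintype ι] in
theorem ind_insert {a : ι} {S : Finset ι} (ha : a ∉ S) (i : ι) :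
    ind (insert a S) i = ee a i + ind S i := by
  unfold ind ee
  by_cases h : i = a
  · subst h
    simp [ha]
  · simp [h]

theorem sum_ee (a : ι) : ∑ i, ee a i = 1 := by
  unfold ee
  simp

theorem sum_ee_mul (a : ι) (x : ℤ) : ∑ i, ee a i * x = x := by
  rw [← Finset.sum_mul, sum_ee, one_mul]

omit [Fintype ι] in
theorem edge_symm (a b i j : ι) : edge a b i j = edge a b j i := by
  unfold edge
  ring

omit [Fintype ι] in
theorem edge_diag {a b : ι} (h : a ≠ b) (i : ι) : edge a b i i = 0 := by
  unfold edge ee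
  by_cases h1 : i = a
  · subst h1
    simp [h]
  · simp [h1]

theorem edge_row (a b i : ι) : ∑ j, edge a b i j = ee a i + ee b i := by
  unfold edge
  rw [Finset.sum_add_distrib, ← Finset.mul_sum, ← Finset.mul_sum, sum_ee, sum_ee]
  ring

theorem edge_total (a b : ι) : ∑ i, ∑ j, edge a b i j = 2 := by
  simp only [edge_row]
  rw [Finset.sum_add_distrib, sum_ee, sum_ee]
  norm_num

theorem cyc_row (a b c d i : ι) : ∑ j, cyc a b c d i j = 0 := by
  unfold cyc
  rw [Finset.sum_sub_distrib, Finset.sum_add_distrib, Finset.sum_sub_distrib]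
  simp only [edge_row]
  ring

omit [Fintype ι] in
theorem cyc_symm (a b c d i j : ι) : cyc a b c d i j = cyc a b c d j i := by
  unfold cyc
  rw [edge_symm a b, edge_symm b c, edge_symm c d, edge_symm d a]

omit [Fintype ι] in
theorem cyc_diag {a b c d : ι} (h1 : a ≠ b) (h2 : b ≠ c) (h3 : c ≠ d) (h4 : d ≠ a) (i : ι) :
    cyc a b c d i i = 0 := by
  unfold cyc
  rw [edge_diag h1, edge_diag h2, edge_diag h3, edge_diag h4]
  norm_num

theorem cyc_mem {k : ℕ} (hk : 2 ≤ k) (hk' : k + 2 ≤ Fintype.card ι) {a b c d : ι} (hab : a ≠ b)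
    (_hac : a ≠ c) (had : a ≠ d) (hbc : b ≠ c) (_hbd : b ≠ d) (hcd : c ≠ d) :
    (cyc a b c d : ι → ι → ℤ) ∈ Lat k := by
  have h4 : ({a, b, c, d} : Finset ι).card ≤ 4 := Finset.card_le_four
  have h5 : k - 2 ≤ (Finset.univ \ ({a, b, c, d} : Finset ι)).card := by
    rw [Finset.card_sdiff_of_subset (Finset.subset_univ _), Finset.card_univ]
    omega
  obtain ⟨S, hS, hSc⟩ := Finset.exists_subset_card_eq h5
  have hn : ∀ x ∈ ({a, b, c, d} : Finset ι), x ∉ S := by
    intro x hx hxS
    have := hS hxS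
    rw [Finset.mem_sdiff] at this
    exact this.2 hx
  have ha : a ∉ S := hn a (by simp)
  have hb : b ∉ S := hn b (by simp)
  have hc : c ∉ S := hn c (by simp)
  have hd : d ∉ S := hn d (by simp)
  have key : ∀ x y : ι, x ≠ y → x ∉ S → y ∉ S →
      (insert x (insert y S)).card = k ∧
      ∀ i, ind (insert x (insert y S)) i = ee x i + (ee y i + ind S i) := by
    intro x y hxy hx hy
    have h1 : x ∉ insert y S := by
      rw [Finset.mem_insert]
      push Not
      exact ⟨hxy, hx⟩
    refine ⟨?_, ?_⟩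
    · rw [Finset.card_insert_of_notMem h1, Finset.card_insert_of_notMem hy, hSc]
      omega
    · intro i
      rw [ind_insert h1, ind_insert hy]
  obtain ⟨k1, e1⟩ := key a b hab ha hb
  obtain ⟨k2, e2⟩ := key b c hbc hb hc
  obtain ⟨k3, e3⟩ := key c d hcd hc hd
  obtain ⟨k4, e4⟩ := key d a (Ne.symm had) hd ha
  have : (cyc a b c d : ι → ι → ℤ) = blk (insert a (insert b S)) - blk (insert b (insert c S)) +
      blk (insert c (insert d S)) - blk (insert d (insert a S)) := by
    funext i j
    simp only [Pi.sub_apply, Pi.add_apply, blk, e1, e2, e3, e4, cyc, edge]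
    ring
  rw [this]
  exact sub_mem (add_mem (sub_mem (blk_mem k1) (blk_mem k2)) (blk_mem k3)) (blk_mem k4)

omit [DecidableEq ι] in
/-- in a row with sum zero a negative entry forces a positive one -/
theorem exists_pos {x : ι → ℤ} (hx : ∑ j, x j = 0) {j : ι} (hj : x j < 0) : ∃ k, 0 < x k := by
  by_contra h
  push Not at h
  have h1 : ∑ j, x j < ∑ _j : ι, (0 : ℤ) :=
    Finset.sum_lt_sum (fun i _ => h i) ⟨j, Finset.mem_univ _, hj⟩
  rw [hx] at h1
  simp at h1

omit [DecidableEq ι] in
theorem exists_neg {x : ι → ℤ} (hx : ∑ j, x j = 0) {j : ι} (hj : 0 < x j) : ∃ k, x k < 0 := by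
  by_contra h
  push Not at h
  have h1 : ∑ _j : ι, (0 : ℤ) < ∑ j, x j :=
    Finset.sum_lt_sum (fun i _ => h i) ⟨j, Finset.mem_univ _, hj⟩
  rw [hx] at h1
  simp at h1

/-- an alternating path on four different points -/
theorem exists_path (X : ι → ι → ℤ) (hs : ∀ i j, X i j = X j i) (hd : ∀ i, X i i = 0)
    (hr : ∀ i, ∑ j, X i j = 0) (hX : ∃ i j, X i j ≠ 0) :
    ∃ p q r s, p ≠ q ∧ p ≠ r ∧ p ≠ s ∧ q ≠ r ∧ q ≠ s ∧ r ≠ s ∧ 0 < X p q ∧ X q r < 0 ∧
      0 < X r s := by
  have hne : ∀ {i j}, X i j ≠ 0 → i ≠ j := by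
    intro i j h hij
    subst hij
    exact h (hd i)
  have hneg : ∃ b c, X b c < 0 := by
    obtain ⟨i, j, hij⟩ := hX
    rcases lt_or_gt_of_ne hij with h | h
    · exact ⟨i, j, h⟩
    · obtain ⟨k, hk⟩ := exists_neg (hr i) h
      exact ⟨i, k, hk⟩
  obtain ⟨b, c, hbc⟩ := hneg
  by_cases hex : ∃ a d, 0 < X b a ∧ 0 < X c d ∧ a ≠ d
  · obtain ⟨a, d, ha, hd', had⟩ := hex
    refine ⟨a, b, c, d, ?_, ?_, had, ?_, ?_, ?_, ?_, hbc, hd'⟩
    · exact (hne ha.ne').symm
    · intro h
      subst h
      omega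
    · exact hne hbc.ne
    · intro h
      subst h
      rw [hs c b] at hd'
      omega
    · exact hne hd'.ne'
    · rw [hs a b]
      exact ha
  · push Not at hex
    obtain ⟨a, ha⟩ := exists_pos (hr b) hbc
    have hcb : X c b < 0 := by rw [hs]; exact hbc
    obtain ⟨d, hd'⟩ := exists_pos (hr c) hcb
    have had := hex a d ha hd'
    subst had
    have hab : 0 < X a b := by rw [hs]; exact ha
    obtain ⟨e, he⟩ := exists_neg (hr a) hab
    have hea : X e a < 0 := by rw [hs]; exact he
    obtain ⟨f, hf⟩ := exists_pos (hr e) hea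
    refine ⟨b, a, e, f, ?_, ?_, ?_, ?_, ?_, ?_, ha, he, hf⟩
    · exact hne ha.ne'
    · intro h
      subst h
      omega
    · intro h
      subst h
      have h1 : 0 < X b e := by rw [hs]; exact hf
      have h2 := hex e a h1 hd'
      subst h2
      rw [hd e] at he
      omega
    · exact hne he.ne
    · intro h
      subst h
      omega
    · exact hne hf.ne'

omit [Fintype ι] in
theorem edge_eq {a b : ι} (h : a ≠ b) (i j : ι) :
    edge a b i j = if (i = a ∧ j = b) ∨ (i = b ∧ j = a) then 1 else 0 := by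
  unfold edge ee
  by_cases h1 : i = a
  · subst h1
    by_cases h2 : j = b
    · subst h2
      simp [h, h.symm]
    · simp [h, h2]
  · by_cases h2 : i = b
    · subst h2
      simp [h1]
    · simp [h1, h2]

omit [Fintype ι] in
theorem natAbs_step (X : ι → ι → ℤ) (hs : ∀ i j, X i j = X j i) {p q r s : ι} (h1 : p ≠ q)
    (h2 : p ≠ r) (h3 : p ≠ s) (h4 : q ≠ r) (h5 : q ≠ s) (h6 : r ≠ s) (hpq : 0 < X p q)
    (hqr : X q r < 0) (hrs : 0 < X r s) (i j : ι) :
    |X i j - cyc p q r s i j| ≤ |X i j| -
      (edge p q i j + edge q r i j + edge r s i j - edge s p i j) := by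
  have hqp : 0 < X q p := by rw [hs]; exact hpq
  have hrq : X r q < 0 := by rw [hs]; exact hqr
  have hsr : 0 < X s r := by rw [hs]; exact hrs
  unfold cyc
  rw [edge_eq h1, edge_eq h4, edge_eq h6, edge_eq h3.symm]
  grind

theorem zero_mem {k : ℕ} (hk : 2 ≤ k) (hk' : k + 2 ≤ Fintype.card ι) (X : ι → ι → ℤ)
    (hs : ∀ i j, X i j = X j i) (hd : ∀ i, X i i = 0) (hr : ∀ i, ∑ j, X i j = 0) :
    X ∈ Lat k := by
  suffices h : ∀ N : ℕ, ∀ X : ι → ι → ℤ, (∀ i j, X i j = X j i) → (∀ i, X i i = 0) →
      (∀ i, ∑ j, X i j = 0) → (∑ i, ∑ j, |X i j| ≤ N) → X ∈ Lat k by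
    refine h (∑ i, ∑ j, |X i j|).toNat X hs hd hr ?_
    rw [Int.toNat_of_nonneg]
    exact Finset.sum_nonneg fun i _ => Finset.sum_nonneg fun j _ => abs_nonneg _
  clear hs hd hr X
  intro N
  induction N with
  | zero =>
    intro X _ _ _ hN
    have h1 : ∀ i j, X i j = 0 := by
      intro i j
      have h2 : |X i j| ≤ ∑ i, ∑ j, |X i j| := by
        refine le_trans (Finset.single_le_sum (f := fun j => |X i j|)
          (fun j _ => abs_nonneg _) (Finset.mem_univ j)) ?_
        exact Finset.single_le_sum (f := fun i => ∑ j, |X i j|)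
          (fun i _ => Finset.sum_nonneg fun j _ => abs_nonneg _) (Finset.mem_univ i)
      have h3 : |X i j| ≤ 0 := h2.trans (by simpa using hN)
      exact abs_eq_zero.1 (le_antisymm h3 (abs_nonneg _))
    have h2 : X = 0 := by
      funext i j
      exact h1 i j
    rw [h2]
    exact (Lat k).zero_mem
  | succ N ih =>
    intro X hs hd hr hN
    by_cases hX : ∃ i j, X i j ≠ 0
    · obtain ⟨p, q, r, s, h1, h2, h3, h4, h5, h6, hpq, hqr, hrs⟩ := exists_path X hs hd hr hX
      have hc := cyc_mem hk hk' h1 h2 h3 h4 h5 h6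
      have h7 : X - cyc p q r s ∈ Lat k := by
        apply ih
        · intro i j
          simp only [Pi.sub_apply]
          rw [hs i j, cyc_symm]
        · intro i
          simp only [Pi.sub_apply]
          rw [hd, cyc_diag h1 h4 h6 h3.symm]
          norm_num
        · intro i
          simp only [Pi.sub_apply]
          rw [Finset.sum_sub_distrib, hr, cyc_row]
          norm_num
        · have h8 : ∑ i, ∑ j, |(X - cyc p q r s) i j| ≤ ∑ i, ∑ j, (|X i j| -
              (edge p q i j + edge q r i j + edge r s i j - edge s p i j)) := by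
            refine Finset.sum_le_sum fun i _ => Finset.sum_le_sum fun j _ => ?_
            exact natAbs_step X hs h1 h2 h3 h4 h5 h6 hpq hqr hrs i j
          have h9 : ∑ i, ∑ j, (|X i j| -
              (edge p q i j + edge q r i j + edge r s i j - edge s p i j)) =
              ∑ i, ∑ j, |X i j| - 4 := by
            simp only [Finset.sum_sub_distrib, Finset.sum_add_distrib]
            simp only [edge_total]
            norm_num
          push_cast at hN
          linarith
      have h8 := add_mem h7 hc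
      rwa [sub_add_cancel] at h8
    · push Not at hX
      have h2 : X = 0 := by
        funext i j
        exact hX i j
      rw [h2]
      exact (Lat k).zero_mem

omit [Fintype ι] in
theorem lat_symm {k : ℕ} {X : ι → ι → ℤ} (hX : X ∈ Lat k) (i j : ι) : X i j = X j i := by
  unfold Lat at hX
  induction hX using AddSubgroup.closure_induction with
  | mem x hx =>
    obtain ⟨S, _, rfl⟩ := hx
    unfold blk
    ring
  | zero => rfl
  | add x y _ _ hx hy =>
    simp only [Pi.add_apply]
    rw [hx, hy]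
  | neg x _ hx =>
    simp only [Pi.neg_apply]
    rw [hx]

theorem sum_ind (S : Finset ι) : ∑ i, ind S i = S.card := by
  unfold ind
  simp

omit [Fintype ι] in
theorem ind_sq (S : Finset ι) (i : ι) : ind S i * ind S i = ind S i := by
  unfold ind
  split_ifs <;> norm_num

theorem lat_row {k : ℕ} {X : ι → ι → ℤ} (hX : X ∈ Lat k) (i : ι) :
    ∑ j, X i j = k * X i i := by
  unfold Lat at hX
  induction hX using AddSubgroup.closure_induction with
  | mem x hx =>
    obtain ⟨S, hS, rfl⟩ := hx
    unfold blk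
    rw [← Finset.mul_sum, sum_ind, ind_sq, hS]
    ring
  | zero => simp
  | add x y _ _ hx hy =>
    simp only [Pi.add_apply]
    rw [Finset.sum_add_distrib, hx, hy]
    ring
  | neg x _ hx =>
    simp only [Pi.neg_apply]
    rw [Finset.sum_neg_distrib, hx]
    ring

/-- every vector of degrees with the right sum is the diagonal of a lattice vector -/
theorem exists_diag {k : ℕ} (hk : 1 ≤ k) (hk' : k + 1 ≤ Fintype.card ι) (d : ι → ℤ) (α : ℤ)
    (hd : ∑ i, d i = k * α) : ∃ Z ∈ Lat (ι := ι) k, ∀ i, Z i i = d i := by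
  have hne : Nonempty ι := by
    rw [← Fintype.card_pos_iff]
    omega
  obtain ⟨o⟩ := hne
  obtain ⟨S0, _, hS0⟩ := Finset.exists_subset_card_eq
    (show k ≤ (Finset.univ : Finset ι).card by rw [Finset.card_univ]; omega)
  have hT : ∀ i : ι, ∃ T : Finset ι, T.card = k - 1 ∧ i ∉ T ∧ o ∉ T := by
    intro i
    have h2 : ({i, o} : Finset ι).card ≤ 2 := Finset.card_le_two
    have h5 : k - 1 ≤ (Finset.univ \ ({i, o} : Finset ι)).card := by
      rw [Finset.card_sdiff_of_subset (Finset.subset_univ _), Finset.card_univ]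
      omega
    obtain ⟨T, hT, hTc⟩ := Finset.exists_subset_card_eq h5
    refine ⟨T, hTc, ?_, ?_⟩
    · intro h
      have := hT h
      simp at this
    · intro h
      have := hT h
      simp at this
  choose T hT1 hT2 hT3 using hT
  have hc : ∀ i x, x ∉ T i → (insert x (T i)).card = k := by
    intro i x hx
    rw [Finset.card_insert_of_notMem hx, hT1]
    omega
  refine ⟨α • blk S0 + ∑ i, (d i - α * ind S0 i) • (blk (insert i (T i)) - blk (insert o (T i))),
    ?_, ?_⟩
  · apply add_mem
    · exact zsmul_mem (blk_mem hS0) _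
    · apply sum_mem
      intro i _
      exact zsmul_mem (sub_mem (blk_mem (hc i i (hT2 i))) (blk_mem (hc i o (hT3 i)))) _
  · intro j
    simp only [Pi.add_apply, Finset.sum_apply, Pi.smul_apply, Pi.sub_apply, smul_eq_mul]
    have h1 : ∀ i, (d i - α * ind S0 i) * (blk (insert i (T i)) j j - blk (insert o (T i)) j j) =
        (d i - α * ind S0 i) * ee i j - (d i - α * ind S0 i) * ee o j := by
      intro i
      unfold blk
      rw [ind_sq, ind_sq, ind_insert (hT2 i), ind_insert (hT3 i)]
      ring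
    rw [Finset.sum_congr rfl fun i _ => h1 i, Finset.sum_sub_distrib, ← Finset.sum_mul]
    have h2 : ∑ i, (d i - α * ind S0 i) = 0 := by
      rw [Finset.sum_sub_distrib, hd, ← Finset.mul_sum, sum_ind, hS0]
      ring
    have h3 : ∑ i, (d i - α * ind S0 i) * ee i j = d j - α * ind S0 j := by
      unfold ee
      simp
    rw [h2, h3]
    unfold blk
    rw [ind_sq]
    ring

theorem exists_coeff {k : ℕ} {X : ι → ι → ℤ} (hX : X ∈ Lat k) :
    ∃ z : Finset ι → ℤ, (∀ S, S.card ≠ k → z S = 0) ∧ ∀ i j, X i j = ∑ S, z S * blk S i j := by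
  unfold Lat at hX
  induction hX using AddSubgroup.closure_induction with
  | mem x hx =>
    obtain ⟨S, hS, rfl⟩ := hx
    refine ⟨fun T => if T = S then 1 else 0, ?_, ?_⟩
    · intro T hT
      have : T ≠ S := by
        rintro rfl
        exact hT hS
      simp [this]
    · intro i j
      simp
  | zero => exact ⟨0, by simp, by simp⟩
  | add x y _ _ hx hy =>
    obtain ⟨z1, h1, h2⟩ := hx
    obtain ⟨z2, h3, h4⟩ := hy
    refine ⟨z1 + z2, ?_, ?_⟩
    · intro S hS
      simp [h1 S hS, h3 S hS]
    · intro i j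
      simp only [Pi.add_apply]
      rw [h2, h4, ← Finset.sum_add_distrib]
      refine Finset.sum_congr rfl fun S _ => ?_
      ring
  | neg x _ hx =>
    obtain ⟨z1, h1, h2⟩ := hx
    refine ⟨-z1, ?_, ?_⟩
    · intro S hS
      simp [h1 S hS]
    · intro i j
      simp only [Pi.neg_apply]
      rw [h2, ← Finset.sum_neg_distrib]
      refine Finset.sum_congr rfl fun S _ => ?_
      ring

/-- the lattice theorem -/
theorem signed {k : ℕ} (hk : 2 ≤ k) (hk' : k + 2 ≤ Fintype.card ι) (X : ι → ι → ℤ)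
    (hs : ∀ i j, X i j = X j i) (hr : ∀ i, ∑ j, X i j = k * X i i) (α : ℤ)
    (ht : ∑ i, X i i = k * α) :
    ∃ z : Finset ι → ℤ, (∀ S, S.card ≠ k → z S = 0) ∧ (∑ S, z S = α) ∧
      ∀ i j, X i j = ∑ S, z S * blk S i j := by
  obtain ⟨Z, hZ, hZd⟩ := exists_diag (ι := ι) (by omega : 1 ≤ k) (by omega) (fun i => X i i) α ht
  have h1 : X - Z ∈ Lat k := by
    apply CWPR.zero_mem hk hk'
    · intro i j
      simp only [Pi.sub_apply]
      rw [hs, lat_symm hZ]
    · intro i
      simp only [Pi.sub_apply]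
      rw [hZd]
      ring
    · intro i
      simp only [Pi.sub_apply]
      rw [Finset.sum_sub_distrib, hr, lat_row hZ, hZd]
      ring
  have h2 := add_mem h1 hZ
  rw [sub_add_cancel] at h2
  obtain ⟨z, hz1, hz2⟩ := exists_coeff h2
  refine ⟨z, hz1, ?_, hz2⟩
  have h3 : ∑ i, X i i = k * ∑ S, z S := by
    simp only [hz2]
    rw [Finset.sum_comm, Finset.mul_sum]
    refine Finset.sum_congr rfl fun S _ => ?_
    rw [← Finset.mul_sum]
    unfold blk
    simp only [ind_sq]
    rw [sum_ind]
    by_cases hS : S.card = k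
    · rw [hS]
      ring
    · rw [hz1 S hS]
      ring
  rw [ht] at h3
  have hk0 : (k : ℤ) ≠ 0 := by
    have : 0 < k := by omega
    exact_mod_cast this.ne'
  exact (mul_left_cancel₀ hk0 h3).symm

end CWPR
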