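import Pool.Agent.CWPR.Words

/-!
Monotonicity of constant-weight code sizes for few words.
-/

namespace CWPR

variable {ι : Type*} [Fintype ι] [DecidableEq ι]

/-- uniform bound for all sizes of the columns -/
theorem exists_K : ∃ K : ℕ, ∀ q ∈ Finset.range (Fintype.card ι), 2 ≤ q → 2 * q + 1 ≤ Fintype.card ι →
    ∀ k l : ℕ, (k = q ∧ l = q + 1) ∨ (k = q + 1 ∧ l = q) →
    ∀ (α β w : ℕ) (lam : ℤ), K ≤ α → (k : ℤ) * α + l * β = Fintype.card ι * w →
      (k : ℤ) * (k - 1) * α + l * (l - 1) * β ≤ lam * (Fintype.card ι * (Fintype.card ι - 1)) →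
      ∃ x : Finset ι → ℤ, (∀ S, 0 ≤ x S) ∧ (∑ S, x S = α + β) ∧
        (∀ i, ∑ S, x S * ind S i = w) ∧ (∀ i j, i ≠ j → ∑ S, x S * blk S i j ≤ lam) := by
  apply unif (γ := ℕ) (fun K q => 2 ≤ q → 2 * q + 1 ≤ Fintype.card ι →
    ∀ k l : ℕ, (k = q ∧ l = q + 1) ∨ (k = q + 1 ∧ l = q) →
    ∀ (α β w : ℕ) (lam : ℤ), K ≤ α → (k : ℤ) * α + l * β = Fintype.card ι * w →
      (k : ℤ) * (k - 1) * α + l * (l - 1) * β ≤ lam * (Fintype.card ι * (Fintype.card ι - 1)) →
      ∃ x : Finset ι → ℤ, (∀ S, 0 ≤ x S) ∧ (∑ S, x S = α + β) ∧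
        (∀ i, ∑ S, x S * ind S i = w) ∧ (∀ i j, i ≠ j → ∑ S, x S * blk S i j ≤ lam))
  · intro K K' q hKK h h1 h2 k l hkl α β w lam hα
    exact h h1 h2 k l hkl α β w lam (hKK.trans hα)
  · intro q _
    by_cases hq : 2 ≤ q ∧ 2 * q + 1 ≤ Fintype.card ι
    · obtain ⟨K1, hK1⟩ := main_lemma (ι := ι) q (q + 1) (by omega) (by omega) (by omega)
        (by left; push_cast; ring)
      obtain ⟨K2, hK2⟩ := main_lemma (ι := ι) (q + 1) q (by omega) (by omega) (by omega)
        (by right; push_cast; ring)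
      refine ⟨max K1 K2, ?_⟩
      intro _ _ k l hkl α β w lam hα
      rcases hkl with ⟨rfl, rfl⟩ | ⟨rfl, rfl⟩
      · exact hK1 α β w lam ((le_max_left _ _).trans hα)
      · exact hK2 α β w lam ((le_max_right _ _).trans hα)
    · refine ⟨0, ?_⟩
      intro h1 h2
      exact absurd ⟨h1, h2⟩ hq

/-- monotonicity for families of words indexed by `ι` -/
theorem step : ∃ n0 : ℕ, ∀ n : ℕ, n0 ≤ n → ∀ w1 w2 e : ℕ, w1 < w2 → 2 * w2 ≤ n →
    ∀ W : ι → Finset (Fin n), (∀ i, (W i).card = w1) →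
      (∀ i j, i ≠ j → (W i ∩ W j).card + e ≤ w1) →
      ∃ W' : ι → Finset (Fin n), (∀ i, (W' i).card = w2) ∧
        ∀ i j, i ≠ j → (W' i ∩ W' j).card + e ≤ w2 := by
  obtain ⟨K, hK⟩ := exists_K (ι := ι)
  refine ⟨2 * K + 1, ?_⟩
  intro n hn w1 w2 e hw hw2 W hW1 hW2
  set M : ℕ := Fintype.card ι with hM
  have hnpos : 0 < n := by omega
  -- it suffices to bound the intersections
  suffices hsuff : ∃ W' : ι → Finset (Fin n), (∀ i, (W' i).card = w2) ∧
      ∀ i j, i ≠ j → ((W' i ∩ W' j).card : ℤ) ≤ (w2 : ℤ) - e by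
    obtain ⟨W', h1, h2⟩ := hsuff
    refine ⟨W', h1, ?_⟩
    intro i j hij
    have := h2 i j hij
    omega
  by_cases hM2 : M < 2
  · -- at most one word
    obtain ⟨S, _, hS⟩ := Finset.exists_subset_card_eq
      (show w2 ≤ (Finset.univ : Finset (Fin n)).card by rw [Finset.card_fin]; omega)
    refine ⟨fun _ => S, fun _ => hS, ?_⟩
    intro i j hij
    exfalso
    have : 1 < Fintype.card ι := Fintype.one_lt_card_iff.2 ⟨i, j, hij⟩
    omega
  push Not at hM2
  obtain ⟨a, b, hab⟩ : ∃ a b : ι, a ≠ b := Fintype.one_lt_card_iff.1 (by omega)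
  have he : e ≤ w1 := by
    have := hW2 a b hab
    omega
  set lam : ℤ := (w2 : ℤ) - e with hlam
  have hlam0 : 0 ≤ lam := by omega
  set q : ℕ := min (M * w2 / n) ((M - 1) / 2) with hq
  have hq1 : q * n ≤ M * w2 := by
    have h1 : q ≤ M * w2 / n := min_le_left _ _
    exact (Nat.mul_le_mul_right n h1).trans (Nat.div_mul_le_self _ _)
  have hq2 : 2 * q + 1 ≤ M := by
    have h1 : q ≤ (M - 1) / 2 := min_le_right _ _
    omega
  have hq3 : M * w2 ≤ (q + 1) * n := by
    rcases min_choice (M * w2 / n) ((M - 1) / 2) with h | h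
    · have h1 : q = M * w2 / n := by rw [hq, h]
      rw [h1]
      have h2 := Nat.lt_mul_div_succ (M * w2) hnpos
      rw [mul_comm n] at h2
      exact h2.le
    · have h1 : q = (M - 1) / 2 := by rw [hq, h]
      have h2 : M ≤ 2 * (q + 1) := by omega
      have h3 : 2 * (M * w2) ≤ 2 * ((q + 1) * n) := by
        calc 2 * (M * w2) = M * (2 * w2) := by ring
          _ ≤ (2 * (q + 1)) * n := Nat.mul_le_mul h2 hw2
          _ = 2 * ((q + 1) * n) := by ring
      omega
  -- the counting bound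
  have hcount : 2 * (q : ℤ) * (M * w2) - n * (q * (q + 1)) ≤ lam * (M * (M - 1)) := by
    have h1 := counting n w1 ((w1 : ℤ) - e) q W hW1 (by
      intro i j hij
      have := hW2 i j hij
      omega)
    rw [← hM] at h1
    have h2 : (2 * (q : ℤ)) ≤ M - 1 := by
      have : ((2 * q + 1 : ℕ) : ℤ) ≤ M := by exact_mod_cast hq2
      push_cast at this
      linarith
    have h3 : (0 : ℤ) ≤ M * ((w2 : ℤ) - w1) := by
      apply mul_nonneg (Int.natCast_nonneg _)
      omega
    have h4 := mul_le_mul_of_nonneg_right h2 h3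
    rw [hlam]
    linarith
  rcases Nat.lt_or_ge q 1 with hq0 | hq0
  · -- columns of size at most one
    have h1 : q = 0 := by omega
    rw [h1] at hq3
    exact case_zero n w2 lam hlam0 (by rw [← hM]; omega)
  rcases Nat.lt_or_ge q 2 with hq0' | hq0'
  · have h1 : q = 1 := by omega
    rw [h1] at hq3 hq1 hcount
    push_cast at hcount
    exact case_one n w2 lam hlam0 (by rw [← hM]; omega) (by rw [← hM]; omega) (by
      rw [← hM]
      linarith)
  -- the general case
  obtain ⟨r, hr⟩ : ∃ r : ℕ, M * w2 = q * n + r := ⟨M * w2 - q * n, by omega⟩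
  have hrn : r ≤ n := by
    have : (q + 1) * n = q * n + n := by ring
    omega
  obtain ⟨r', hr'⟩ : ∃ r' : ℕ, n = r + r' := ⟨n - r, by omega⟩
  have hMq : q ∈ Finset.range M := by
    rw [Finset.mem_range]
    omega
  have hrz : (M : ℤ) * w2 = q * n + r := by exact_mod_cast hr
  have hnz : (n : ℤ) = r + r' := by exact_mod_cast hr'
  rcases le_total r r' with hrr | hrr
  · obtain ⟨x, h0, h1, h2, h3⟩ := hK q hMq hq0' hq2 q (q + 1) (Or.inl ⟨rfl, rfl⟩) r' r w2 lam
      (by omega) (by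
        rw [hrz, hnz]
        push_cast
        ring) (by
        refine le_trans (le_of_eq ?_) hcount
        rw [hrz, hnz]
        push_cast
        ring)
    apply exists_words n w2 lam x h0 _ h2 h3
    rw [h1, hnz]
    ring
  · obtain ⟨x, h0, h1, h2, h3⟩ := hK q hMq hq0' hq2 (q + 1) q (Or.inr ⟨rfl, rfl⟩) r r' w2 lam
      (by omega) (by
        rw [hrz, hnz]
        push_cast
        ring) (by
        refine le_trans (le_of_eq ?_) hcount
        rw [hrz, hnz]
        push_cast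
        ring)
    apply exists_words n w2 lam x h0 _ h2 h3
    rw [h1, hnz]

/-- the statement for codes -/
theorem mono_few (M : ℕ) : ∃ n0 : ℕ, ∀ n : ℕ, n0 ≤ n → ∀ d w1 w2 : ℕ, w1 < w2 → 2 * w2 ≤ n →
    ∀ C : Finset (Finset (Fin n)), C.card ≤ M → (∀ s ∈ C, s.card = w1) →
      (∀ s ∈ C, ∀ t ∈ C, s ≠ t → d ≤ (symmDiff s t).card) →
      ∃ C' : Finset (Finset (Fin n)), C'.card = C.card ∧ (∀ s ∈ C', s.card = w2) ∧
        (∀ s ∈ C', ∀ t ∈ C', s ≠ t → d ≤ (symmDiff s t).card) := by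
  -- reduction to `1 ≤ d` and to a fixed number of words
  suffices h : ∀ m ∈ Finset.range (M + 1), ∃ n0 : ℕ, ∀ n : ℕ, n0 ≤ n → ∀ d w1 w2 : ℕ, 1 ≤ d →
      w1 < w2 → 2 * w2 ≤ n → ∀ C : Finset (Finset (Fin n)), C.card = m → (∀ s ∈ C, s.card = w1) →
      (∀ s ∈ C, ∀ t ∈ C, s ≠ t → d ≤ (symmDiff s t).card) →
      ∃ C' : Finset (Finset (Fin n)), C'.card = C.card ∧ (∀ s ∈ C', s.card = w2) ∧
        (∀ s ∈ C', ∀ t ∈ C', s ≠ t → d ≤ (symmDiff s t).card) by
    obtain ⟨n0, hn0⟩ := unif (γ := ℕ) (fun n0 m => ∀ n : ℕ, n0 ≤ n → ∀ d w1 w2 : ℕ, 1 ≤ d →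
      w1 < w2 → 2 * w2 ≤ n → ∀ C : Finset (Finset (Fin n)), C.card = m → (∀ s ∈ C, s.card = w1) →
      (∀ s ∈ C, ∀ t ∈ C, s ≠ t → d ≤ (symmDiff s t).card) →
      ∃ C' : Finset (Finset (Fin n)), C'.card = C.card ∧ (∀ s ∈ C', s.card = w2) ∧
        (∀ s ∈ C', ∀ t ∈ C', s ≠ t → d ≤ (symmDiff s t).card))
      (by
        intro K K' m hKK h n hn
        exact h n (hKK.trans hn)) (Finset.range (M + 1)) h
    refine ⟨n0, ?_⟩
    intro n hn d w1 w2 hw hw2 C hCM hC hD
    have hmem : C.card ∈ Finset.range (M + 1) := by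
      rw [Finset.mem_range]
      omega
    obtain ⟨C', h1, h2, h3⟩ := hn0 _ hmem n hn (max d 1) w1 w2 (le_max_right _ _) hw hw2 C rfl hC
      (by
        intro s hs t ht hst
        apply max_le (hD s hs t ht hst)
        rw [Nat.one_le_iff_ne_zero, Ne, Finset.card_eq_zero, ← Finset.bot_eq_empty,
          symmDiff_eq_bot]
        exact hst)
    refine ⟨C', h1, h2, ?_⟩
    intro s hs t ht hst
    exact (le_max_left _ _).trans (h3 s hs t ht hst)
  intro m _
  obtain ⟨n0, hn0⟩ := step (ι := Fin m)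
  refine ⟨n0, ?_⟩
  intro n hn d w1 w2 hd hw hw2 C hCm hC hD
  set f := (Finset.equivFinOfCardEq hCm) with hf
  have hsym : ∀ (s t : Finset (Fin n)), (symmDiff s t).card + 2 * (s ∩ t).card =
      s.card + t.card := by
    intro s t
    have h1 : symmDiff s t = (s \ t) ∪ (t \ s) := rfl
    have h2 : Disjoint (s \ t) (t \ s) := disjoint_sdiff_sdiff
    rw [h1, Finset.card_union_of_disjoint h2]
    have h3 := Finset.card_sdiff_add_card_inter s t
    have h4 := Finset.card_sdiff_add_card_inter t s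
    rw [Finset.inter_comm t s] at h4
    omega
  obtain ⟨W', h1, h2⟩ := hn0 n hn w1 w2 ((d + 1) / 2) hw hw2 (fun i => (f.symm i : Finset (Fin n)))
    (by
      intro i
      exact hC _ (f.symm i).2) (by
      intro i j hij
      have hne : (f.symm i : Finset (Fin n)) ≠ (f.symm j : Finset (Fin n)) := by
        intro h
        exact hij (f.symm.injective (Subtype.ext h))
      have h3 := hD _ (f.symm i).2 _ (f.symm j).2 hne
      have h4 := hsym (f.symm i : Finset (Fin n)) (f.symm j : Finset (Fin n))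
      rw [hC _ (f.symm i).2, hC _ (f.symm j).2] at h4
      omega)
  have hinj : Function.Injective W' := by
    intro i j hij
    by_contra hne
    have h3 := h2 i j hne
    rw [hij, Finset.inter_self, h1] at h3
    omega
  refine ⟨Finset.univ.image W', ?_, ?_, ?_⟩
  · rw [Finset.card_image_of_injective _ hinj, Finset.card_univ, Fintype.card_fin, hCm]
  · intro s hs
    obtain ⟨i, _, rfl⟩ := Finset.mem_image.1 hs
    exact h1 i
  · intro s hs t ht hst
    obtain ⟨i, _, rfl⟩ := Finset.mem_image.1 hs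
    obtain ⟨j, _, rfl⟩ := Finset.mem_image.1 ht
    have hij : i ≠ j := fun h => hst (by rw [h])
    have h3 := h2 i j hij
    have h4 := hsym (W' i) (W' j)
    rw [h1, h1] at h4
    omega

end CWPR
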