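import Pool.Agent.CWPR.Main

/-!
The range above the Plotkin (Johnson) line.
-/

namespace CWPR

variable {ι : Type*} [Fintype ι] [DecidableEq ι]

/-- the averaging bound -/
theorem johnson (n d w : ℕ) (W : ι → Finset (Fin n)) (hW : ∀ i, (W i).card = w)
    (hl : ∀ i j, i ≠ j → 2 * (W i ∩ W j).card + d ≤ 2 * w) :
    (Fintype.card ι : ℤ) * ((Fintype.card ι - 1) * (d * n)) ≤
      Fintype.card ι * (Fintype.card ι * (2 * w * (n - w))) := by
  set s : Fin n → ℤ := fun t => ∑ i, ind (W i) t with hs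
  have h2 : ∑ t, s t = Fintype.card ι * w := by
    rw [hs, Finset.sum_comm]
    simp only [sum_ind, hW]
    simp
  have h3 : ∑ t, s t ^ 2 = ∑ i, ∑ j, ((W i ∩ W j).card : ℤ) := by
    have h4 : ∀ t, s t ^ 2 = ∑ i, ∑ j, ind (W i) t * ind (W j) t := by
      intro t
      rw [hs, sq, Finset.sum_mul_sum]
    rw [Finset.sum_congr rfl fun t _ => h4 t, Finset.sum_comm]
    refine Finset.sum_congr rfl fun i _ => ?_
    rw [Finset.sum_comm]
    refine Finset.sum_congr rfl fun j _ => ?_
    rw [← sum_ind]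
    refine Finset.sum_congr rfl fun t _ => ?_
    unfold ind
    by_cases h5 : t ∈ W i <;> by_cases h6 : t ∈ W j <;> simp [h5, h6]
  have h4 : ∑ i, ∑ j, (2 * ((W i ∩ W j).card : ℤ)) ≤
      ∑ i : ι, ∑ j : ι, ((2 * w - d : ℤ) + ee i j * d) := by
    refine Finset.sum_le_sum fun i _ => Finset.sum_le_sum fun j _ => ?_
    unfold ee
    by_cases h : j = i
    · subst h
      rw [Finset.inter_self, hW]
      simp
    · rw [if_neg h]
      have := hl i j (Ne.symm h)
      have h6 : 2 * ((W i ∩ W j).card : ℤ) + d ≤ 2 * w := by exact_mod_cast this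
      linarith
  have h5 : ∑ i : ι, ∑ j : ι, ((2 * w - d : ℤ) + ee i j * d) =
      Fintype.card ι * (Fintype.card ι * (2 * w - d) + d) := by
    have h6 : ∀ i : ι, ∑ j : ι, ((2 * w - d : ℤ) + ee i j * d) =
        Fintype.card ι * (2 * w - d) + d := by
      intro i
      rw [Finset.sum_add_distrib, sum_ee_mul]
      simp only [Finset.sum_const, Finset.card_univ, nsmul_eq_mul]
    rw [Finset.sum_congr rfl fun i _ => h6 i]
    simp
  have h7 : (∑ t, s t) ^ 2 ≤ (Finset.univ : Finset (Fin n)).card * ∑ t, s t ^ 2 :=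
    sq_sum_le_card_mul_sum_sq
  rw [h2, h3, Finset.card_fin] at h7
  simp only [← Finset.mul_sum] at h4
  rw [h5] at h4
  have hn : (0 : ℤ) ≤ n := Int.natCast_nonneg _
  nlinarith [mul_le_mul_of_nonneg_left h4 hn]

theorem mono_plotkin (ε : ℝ) (hε : 0 < ε) : ∃ n0 : ℕ, ∀ n : ℕ, n0 ≤ n → ∀ d w1 w2 : ℕ, w1 < w2 →
    2 * w2 ≤ n → (1 + ε) * (2 * w1 * ((n : ℝ) - w1)) ≤ d * n →
    ∀ C : Finset (Finset (Fin n)), (∀ s ∈ C, s.card = w1) →
      (∀ s ∈ C, ∀ t ∈ C, s ≠ t → d ≤ (symmDiff s t).card) →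
      ∃ C' : Finset (Finset (Fin n)), C'.card = C.card ∧ (∀ s ∈ C', s.card = w2) ∧
        (∀ s ∈ C', ∀ t ∈ C', s ≠ t → d ≤ (symmDiff s t).card) := by
  obtain ⟨n0, hn0⟩ := mono_few (⌈(1 + ε) / ε⌉₊ + 1)
  refine ⟨n0, ?_⟩
  intro n hn d w1 w2 hw hw2 hdn C hC hD
  refine hn0 n hn d w1 w2 hw hw2 C ?_ hC hD
  have hw1n : (w1 : ℝ) < n := by
    have : w1 < n := by omega
    exact_mod_cast this
  rcases Nat.eq_zero_or_pos w1 with h0 | h0
  · -- the word of weight zero
    have h1 : C ⊆ {∅} := by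
      intro s hs
      have := hC s hs
      rw [h0, Finset.card_eq_zero] at this
      rw [this]
      exact Finset.mem_singleton_self _
    have h2 := Finset.card_le_card h1
    rw [Finset.card_singleton] at h2
    omega
  · set m : ℕ := C.card with hm
    set f := (Finset.equivFinOfCardEq hm.symm) with hf
    have hsym : ∀ (s t : Finset (Fin n)), (symmDiff s t).card + 2 * (s ∩ t).card =
        s.card + t.card := by
      intro s t
      have h1 : symmDiff s t = (s \ t) ∪ (t \ s) := rfl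
      have h2 : Disjoint (s \ t) (t \ s) := disjoint_sdiff_sdiff
      rw [h1, Finset.card_union_of_disjoint h2]
      have h3 := Finset.card_sdiff_add_card_inter s t
      have h4 := Finset.card_sdiff_add_card_inter t s
      rw [Finset.inter_comm t s] at h4
      omega
    have h1 := johnson (ι := Fin m) n d w1 (fun i => (f.symm i : Finset (Fin n))) (by
      intro i
      exact hC _ (f.symm i).2) (by
      intro i j hij
      have hne : (f.symm i : Finset (Fin n)) ≠ (f.symm j : Finset (Fin n)) := by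
        intro h
        exact hij (f.symm.injective (Subtype.ext h))
      have h3 := hD _ (f.symm i).2 _ (f.symm j).2 hne
      have h4 := hsym (f.symm i : Finset (Fin n)) (f.symm j : Finset (Fin n))
      rw [hC _ (f.symm i).2, hC _ (f.symm j).2] at h4
      omega)
    rw [Fintype.card_fin] at h1
    rcases Nat.eq_zero_or_pos m with hm0 | hm0
    · omega
    have h2 : ((m : ℝ) - 1) * (d * n) ≤ m * (2 * w1 * (n - w1)) := by
      have h3 : (((m : ℤ) - 1) * (d * n)) ≤ m * (2 * w1 * (n - w1)) :=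
        le_of_mul_le_mul_left h1 (by exact_mod_cast hm0)
      exact_mod_cast h3
    have hpos : 0 < 2 * (w1 : ℝ) * (n - w1) := by
      have : (0 : ℝ) < w1 := by exact_mod_cast h0
      exact mul_pos (by linarith) (by linarith)
    have hm1 : (1 : ℝ) ≤ m := by exact_mod_cast hm0
    have h3 : ((m : ℝ) - 1) * ((1 + ε) * (2 * w1 * ((n : ℝ) - w1))) ≤
        m * (2 * w1 * (n - w1)) :=
      (mul_le_mul_of_nonneg_left hdn (by linarith)).trans h2
    have h4 : ((m : ℝ) - 1) * (1 + ε) ≤ m := by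
      have h5 : (((m : ℝ) - 1) * (1 + ε)) * (2 * w1 * ((n : ℝ) - w1)) ≤
          m * (2 * w1 * (n - w1)) := by linarith
      exact le_of_mul_le_mul_right h5 hpos
    have h5 : (m : ℝ) ≤ (1 + ε) / ε := by
      rw [le_div_iff₀ hε]
      nlinarith
    have h6 : (m : ℝ) ≤ (⌈(1 + ε) / ε⌉₊ : ℝ) := h5.trans (Nat.le_ceil _)
    have h7 : m ≤ ⌈(1 + ε) / ε⌉₊ := by exact_mod_cast h6
    omega

end CWPR
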