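import Pool.Agent.CWPR.Full

/-!
From multiplicities of columns to words; the cases of small column size.
-/

namespace CWPR

variable {ι : Type*} [Fintype ι] [DecidableEq ι]

/-- columns with prescribed multiplicities -/
theorem exists_cols (n : ℕ) (x : Finset ι → ℤ) (h0 : ∀ S, 0 ≤ x S) (hs : ∑ S, x S = n) :
    ∃ col : Fin n → Finset ι, ∀ g : Finset ι → ℤ, ∑ t, g (col t) = ∑ S, x S * g S := by
  have hcard : Fintype.card (Σ S : Finset ι, Fin (x S).toNat) = n := by
    rw [Fintype.card_sigma]
    simp only [Fintype.card_fin]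
    have h1 : ((∑ S, (x S).toNat : ℕ) : ℤ) = n := by
      push_cast
      rw [← hs]
      refine Finset.sum_congr rfl fun S _ => ?_
      exact Int.toNat_of_nonneg (h0 S)
    exact_mod_cast h1
  set e := Fintype.equivFinOfCardEq hcard with he
  refine ⟨fun t => (e.symm t).1, ?_⟩
  intro g
  rw [Equiv.sum_comp e.symm (fun p => g p.1), Fintype.sum_sigma]
  refine Finset.sum_congr rfl fun S _ => ?_
  simp only [Finset.sum_const, Finset.card_univ, Fintype.card_fin, nsmul_eq_mul]
  rw [Int.toNat_of_nonneg (h0 S)]

/-- from a solution to words -/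
theorem exists_words (n w : ℕ) (lam : ℤ) (x : Finset ι → ℤ) (h0 : ∀ S, 0 ≤ x S)
    (hs : ∑ S, x S = n) (hw : ∀ i, ∑ S, x S * ind S i = w)
    (hl : ∀ i j, i ≠ j → ∑ S, x S * blk S i j ≤ lam) :
    ∃ W : ι → Finset (Fin n), (∀ i, (W i).card = w) ∧
      ∀ i j, i ≠ j → ((W i ∩ W j).card : ℤ) ≤ lam := by
  obtain ⟨col, hcol⟩ := exists_cols n x h0 hs
  refine ⟨fun i => Finset.univ.filter (fun t => i ∈ col t), ?_, ?_⟩
  · intro i
    have h1 := hcol (fun S => ind S i)
    rw [hw] at h1
    have h2 : ((Finset.univ.filter (fun t => i ∈ col t)).card : ℤ) = w := by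
      rw [← h1, Finset.card_filter]
      push_cast
      rfl
    exact_mod_cast h2
  · intro i j hij
    have h1 := hcol (fun S => blk S i j)
    have h2 := hl i j hij
    rw [← h1] at h2
    refine le_trans (le_of_eq ?_) h2
    rw [← Finset.filter_and, Finset.card_filter]
    push_cast
    refine Finset.sum_congr rfl fun t _ => ?_
    unfold blk ind
    by_cases h3 : i ∈ col t <;> by_cases h4 : j ∈ col t <;> simp [h3, h4]

/-- pairs as blocks -/
theorem pairs (N : ℕ) : ∀ y : ι → ι → ℤ, (∀ i j, y i j = y j i) → (∀ i, y i i = 0) →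
    (∀ i j, 0 ≤ y i j) → ∑ i, ∑ j, y i j ≤ N →
    ∃ x : Finset ι → ℤ, (∀ S, 0 ≤ x S) ∧ 2 * ∑ S, x S = ∑ i, ∑ j, y i j ∧
      (∀ i, ∑ S, x S * ind S i = ∑ j, y i j) ∧
      (∀ i j, i ≠ j → ∑ S, x S * blk S i j = y i j) := by
  induction N with
  | zero =>
    intro y _ _ h3 hN
    have h1 : ∀ i j, y i j = 0 := by
      intro i j
      have h2 : y i j ≤ ∑ i, ∑ j, y i j := by
        refine le_trans (Finset.single_le_sum (f := fun j => y i j)
          (fun j _ => h3 i j) (Finset.mem_univ j)) ?_
        exact Finset.single_le_sum (f := fun i => ∑ j, y i j)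
          (fun i _ => Finset.sum_nonneg fun j _ => h3 i j) (Finset.mem_univ i)
      exact le_antisymm (h2.trans (by simpa using hN)) (h3 i j)
    refine ⟨0, by simp, by simp [h1], by simp [h1], by simp [h1]⟩
  | succ N ih =>
    intro y h1 h2 h3 hN
    by_cases hex : ∃ a b, 0 < y a b
    · obtain ⟨a, b, hab⟩ := hex
      have hne : a ≠ b := by
        rintro rfl
        rw [h2] at hab
        exact lt_irrefl _ hab
      obtain ⟨x, e1, e2, e3, e4⟩ := ih (fun i j => y i j - edge a b i j) (by
          intro i j
          rw [h1, edge_symm]) (by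
          intro i
          rw [h2, edge_diag hne]
          norm_num) (by
          intro i j
          rw [edge_eq hne]
          have := h3 i j
          split_ifs with h
          · rcases h with ⟨rfl, rfl⟩ | ⟨rfl, rfl⟩
            · omega
            · rw [h1]
              omega
          · omega) (by
          simp only [Finset.sum_sub_distrib]
          rw [edge_total]
          push_cast at hN
          linarith)
      have hb : b ∉ (∅ : Finset ι) := by simp
      have ha : a ∉ insert b (∅ : Finset ι) := by simpa using hne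
      have hind : ∀ i, ind (insert a (insert b (∅ : Finset ι))) i = ee a i + ee b i := by
        intro i
        rw [ind_insert ha, ind_insert hb]
        unfold ind
        simp
      refine ⟨fun S => x S + if S = insert a (insert b ∅) then 1 else 0, ?_, ?_, ?_, ?_⟩
      · intro S
        have := e1 S
        show 0 ≤ x S + if S = insert a (insert b ∅) then 1 else 0
        split_ifs <;> omega
      · rw [Finset.sum_add_distrib, mul_add, e2]
        simp only [Finset.sum_sub_distrib]
        rw [edge_total]
        simp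
      · intro i
        have e5 : ∀ S, (x S + if S = insert a (insert b ∅) then 1 else 0) * ind S i =
            x S * ind S i + if S = insert a (insert b ∅) then ind S i else 0 := by
          intro S
          split_ifs <;> ring
        rw [Finset.sum_congr rfl fun S _ => e5 S, Finset.sum_add_distrib, e3]
        simp only [Finset.sum_sub_distrib]
        rw [edge_row, Finset.sum_ite_eq' Finset.univ, if_pos (Finset.mem_univ _), hind]
        ring
      · intro i j hij
        have e5 : ∀ S, (x S + if S = insert a (insert b ∅) then 1 else 0) * blk S i j =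
            x S * blk S i j + if S = insert a (insert b ∅) then blk S i j else 0 := by
          intro S
          split_ifs <;> ring
        rw [Finset.sum_congr rfl fun S _ => e5 S, Finset.sum_add_distrib, e4 i j hij,
          Finset.sum_ite_eq' Finset.univ, if_pos (Finset.mem_univ _)]
        unfold blk
        rw [hind, hind]
        have e6 : ∀ c : ι, ee c i * ee c j = 0 := by
          intro c
          unfold ee
          by_cases hi : i = c
          · have hj : j ≠ c := fun h => hij (hi.trans h.symm)
            simp [hj]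
          · simp [hi]
        have e7 := e6 a
        have e8 := e6 b
        unfold edge
        linear_combination e7 + e8
    · push Not at hex
      apply ih y h1 h2 h3
      have h4 : ∑ i, ∑ j, y i j ≤ 0 :=
        Finset.sum_nonpos fun i _ => Finset.sum_nonpos fun j _ => hex i j
      have h5 : (0 : ℤ) ≤ N := Int.natCast_nonneg _
      linarith

/-- singletons as blocks -/
theorem singles (f : ι → ℤ) (h0 : ∀ i, 0 ≤ f i) : ∃ x : Finset ι → ℤ, (∀ S, 0 ≤ x S) ∧
    ∑ S, x S = ∑ i, f i ∧ (∀ i, ∑ S, x S * ind S i = f i) ∧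
    (∀ i j, i ≠ j → ∑ S, x S * blk S i j = 0) := by
  have key : ∀ g : Finset ι → ℤ, ∑ S, (∑ i, if S = {i} then f i else 0) * g S =
      ∑ i, f i * g {i} := by
    intro g
    have h1 : ∀ S : Finset ι, (∑ i, if S = {i} then f i else 0) * g S =
        ∑ i, if S = {i} then f i * g {i} else 0 := by
      intro S
      rw [Finset.sum_mul]
      refine Finset.sum_congr rfl fun i _ => ?_
      split_ifs with h
      · rw [h]
      · ring
    rw [Finset.sum_congr rfl fun S _ => h1 S, Finset.sum_comm]
    refine Finset.sum_congr rfl fun i _ => ?_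
    simp
  have hi : ∀ i j : ι, ind {i} j = ee i j := by
    intro i j
    unfold ind ee
    simp
  refine ⟨fun S => ∑ i, if S = {i} then f i else 0, ?_, ?_, ?_, ?_⟩
  · intro S
    refine Finset.sum_nonneg fun i _ => ?_
    split_ifs
    · exact h0 i
    · exact le_rfl
  · have := key (fun _ => 1)
    simpa using this
  · intro i
    rw [key (fun S => ind S i)]
    simp only [hi]
    unfold ee
    simp
  · intro i j hij
    rw [key (fun S => blk S i j)]
    unfold blk
    simp only [hi]
    apply Finset.sum_eq_zero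
    intro c _
    unfold ee
    by_cases h1 : i = c
    · have h2 : j ≠ c := fun h => hij (h1.trans h.symm)
      simp [h2]
    · simp [h1]

/-- column sizes at most one -/
theorem case_zero (n w : ℕ) (lam : ℤ) (hlam : 0 ≤ lam) (h : Fintype.card ι * w ≤ n) :
    ∃ W : ι → Finset (Fin n), (∀ i, (W i).card = w) ∧
      ∀ i j, i ≠ j → ((W i ∩ W j).card : ℤ) ≤ lam := by
  obtain ⟨x, h0, h1, h2, h3⟩ := singles (ι := ι) (fun _ => (w : ℤ)) (fun _ => Int.natCast_nonneg _)
  have hi : ∀ i : ι, ind (∅ : Finset ι) i = 0 := by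
    intro i
    unfold ind
    simp
  have key : ∀ g : Finset ι → ℤ, ∑ S, (x S + if S = ∅ then ((n : ℤ) - Fintype.card ι * w) else 0) *
      g S = ∑ S, x S * g S + ((n : ℤ) - Fintype.card ι * w) * g ∅ := by
    intro g
    have e1 : ∀ S, (x S + if S = ∅ then ((n : ℤ) - Fintype.card ι * w) else 0) * g S =
        x S * g S + if S = ∅ then ((n : ℤ) - Fintype.card ι * w) * g S else 0 := by
      intro S
      split_ifs <;> ring
    rw [Finset.sum_congr rfl fun S _ => e1 S, Finset.sum_add_distrib]
    simp
  apply exists_words n w lam (fun S => x S + if S = ∅ then ((n : ℤ) - Fintype.card ι * w) else 0)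
  · intro S
    have e1 := h0 S
    have e2 : ((Fintype.card ι * w : ℕ) : ℤ) ≤ n := by exact_mod_cast h
    push_cast at e2
    show 0 ≤ x S + if S = ∅ then ((n : ℤ) - Fintype.card ι * w) else 0
    split_ifs <;> linarith
  · have := key (fun _ => 1)
    simp only [mul_one] at this
    rw [this, h1]
    simp
  · intro i
    rw [key (fun S => ind S i), h2, hi]
    ring
  · intro i j hij
    rw [key (fun S => blk S i j), h3 i j hij]
    unfold blk
    rw [hi]
    linarith

/-- column sizes one and two -/
theorem case_one (n w : ℕ) (lam : ℤ) (hlam : 0 ≤ lam) (h : n ≤ Fintype.card ι * w)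
    (h' : Fintype.card ι * w ≤ 2 * n)
    (hT : 2 * ((Fintype.card ι : ℤ) * w - n) ≤
      lam * (Fintype.card ι * (Fintype.card ι - 1))) :
    ∃ W : ι → Finset (Fin n), (∀ i, (W i).card = w) ∧
      ∀ i j, i ≠ j → ((W i ∩ W j).card : ℤ) ≤ lam := by
  set M : ℕ := Fintype.card ι with hM
  have hTn : ((M * w - n : ℕ) : ℤ) = (M : ℤ) * w - n := by
    rw [Nat.cast_sub h]
    push_cast
    ring
  obtain ⟨y, ⟨hy1, hy2, hy3, hy4, hy5⟩, hbal⟩ := balanced (ι := ι) lam hlam (M * w - n) (by
    rw [hTn]
    exact hT)
  rw [hTn] at hy5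
  have hDw : ∀ i, ∑ j, y i j ≤ w := by
    intro i
    by_contra hcon
    push Not at hcon
    have h1 : ∑ _i' : ι, (w : ℤ) < ∑ i', ∑ j, y i' j := by
      apply Finset.sum_lt_sum
      · intro i' _
        have := hbal i i'
        omega
      · exact ⟨i, Finset.mem_univ _, hcon⟩
    rw [hy5] at h1
    simp only [Finset.sum_const, Finset.card_univ, nsmul_eq_mul] at h1
    rw [← hM] at h1
    have h2 : ((M * w : ℕ) : ℤ) ≤ 2 * n := by exact_mod_cast h'
    push_cast at h2
    linarith
  obtain ⟨x2, a0, a1, a2, a3⟩ := pairs (ι := ι) (∑ i, ∑ j, y i j).toNat y hy1 hy2 hy3 (by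
    rw [Int.toNat_of_nonneg (Finset.sum_nonneg fun i _ => Finset.sum_nonneg fun j _ => hy3 i j)])
  obtain ⟨x1, b0, b1, b2, b3⟩ := singles (ι := ι) (fun i => (w : ℤ) - ∑ j, y i j)
    (fun i => by have := hDw i; omega)
  apply exists_words n w lam (fun S => x1 S + x2 S)
  · intro S
    exact add_nonneg (b0 S) (a0 S)
  · rw [Finset.sum_add_distrib, b1, Finset.sum_sub_distrib, hy5]
    simp only [Finset.sum_const, Finset.card_univ, nsmul_eq_mul]
    rw [← hM]
    rw [hy5] at a1
    linarith
  · intro i
    have e1 : ∀ S, (x1 S + x2 S) * ind S i = x1 S * ind S i + x2 S * ind S i := fun S => by ring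
    rw [Finset.sum_congr rfl fun S _ => e1 S, Finset.sum_add_distrib, a2, b2]
    ring
  · intro i j hij
    have e1 : ∀ S, (x1 S + x2 S) * blk S i j = x1 S * blk S i j + x2 S * blk S i j :=
      fun S => by ring
    rw [Finset.sum_congr rfl fun S _ => e1 S, Finset.sum_add_distrib, a3 i j hij, b3 i j hij]
    have := hy4 i j
    linarith

/-- the counting bound -/
theorem counting (n w : ℕ) (lam : ℤ) (q : ℤ) (W : ι → Finset (Fin n)) (hW : ∀ i, (W i).card = w)
    (hl : ∀ i j, i ≠ j → ((W i ∩ W j).card : ℤ) ≤ lam) :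
    2 * q * (Fintype.card ι * w) - n * (q * (q + 1)) ≤
      lam * (Fintype.card ι * (Fintype.card ι - 1)) := by
  set s : Fin n → ℤ := fun t => ∑ i, ind (W i) t with hs
  have h1 : ∀ t, 2 * q * s t - q * (q + 1) ≤ s t * s t - s t := by
    intro t
    have h2 : 0 ≤ (s t - q) * (s t - q - 1) := by
      rcases le_or_gt (s t) q with h | h
      · exact mul_nonneg_of_nonpos_of_nonpos (by linarith) (by linarith)
      · have h3 : q + 1 ≤ s t := h
        exact mul_nonneg (by linarith) (by linarith)
    nlinarith
  have h2 : ∑ t, s t = Fintype.card ι * w := by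
    rw [hs, Finset.sum_comm]
    simp only [sum_ind, hW]
    simp
  have h3 : ∑ t, s t * s t = ∑ i, ∑ j, ((W i ∩ W j).card : ℤ) := by
    have h4 : ∀ t, s t * s t = ∑ i, ∑ j, ind (W i) t * ind (W j) t := by
      intro t
      rw [hs, Finset.sum_mul_sum]
    rw [Finset.sum_congr rfl fun t _ => h4 t, Finset.sum_comm]
    refine Finset.sum_congr rfl fun i _ => ?_
    rw [Finset.sum_comm]
    refine Finset.sum_congr rfl fun j _ => ?_
    rw [← sum_ind]
    refine Finset.sum_congr rfl fun t _ => ?_
    unfold ind
    by_cases h5 : t ∈ W i <;> by_cases h6 : t ∈ W j <;> simp [h5, h6]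
  have h4 : ∑ i, ∑ j, ((W i ∩ W j).card : ℤ) ≤
      ∑ i : ι, ∑ j : ι, (lam + ee i j * ((w : ℤ) - lam)) := by
    refine Finset.sum_le_sum fun i _ => Finset.sum_le_sum fun j _ => ?_
    unfold ee
    by_cases h : j = i
    · subst h
      rw [Finset.inter_self, hW]
      simp
    · rw [if_neg h]
      have := hl i j (Ne.symm h)
      linarith
  have h5 : ∑ i : ι, ∑ j : ι, (lam + ee i j * ((w : ℤ) - lam)) =
      Fintype.card ι * (Fintype.card ι * lam + (w - lam)) := by
    have h6 : ∀ i : ι, ∑ j : ι, (lam + ee i j * ((w : ℤ) - lam)) =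
        Fintype.card ι * lam + (w - lam) := by
      intro i
      rw [Finset.sum_add_distrib, sum_ee_mul]
      simp
    rw [Finset.sum_congr rfl fun i _ => h6 i]
    simp
  have h7 : ∑ t, (2 * q * s t - q * (q + 1)) ≤ ∑ t, (s t * s t - s t) :=
    Finset.sum_le_sum fun t _ => h1 t
  rw [Finset.sum_sub_distrib, Finset.sum_sub_distrib, ← Finset.mul_sum, h2, h3] at h7
  simp only [Finset.sum_const, Finset.card_univ, Fintype.card_fin, nsmul_eq_mul] at h7
  rw [h5] at h4
  linarith

end CWPR
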